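import Pool.Agent.TH806.Tau

set_option autoImplicit false

/-! From smooth windows to sharp intervals, with the precise error. -/

namespace Pool.Agent.H998_LP

open Finset Filter MeasureTheory Topology
open Pool.Agent.H306R2.SM (om cl Yf)
open Pool.Agent.H965R2.SMT1 (Ph Ph_nonneg Ph_le_one Ph_chernoff Ph_hasDeriv W_hasDeriv om_nonneg)
open Pool.Agent.TH806 (Ph_low om_poly_int)

lemma fact_le {k : ℕ} (hk : 1 ≤ k) : (k.factorial : ℝ) ≤ 3 * Real.sqrt k * (k / Real.exp 1) ^ k := by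
  obtain ⟨n, rfl⟩ : ∃ n, k = n + 1 := ⟨k - 1, by omega⟩
  have h1 := Stirling.stirlingSeq'_antitone (Nat.zero_le n)
  simp only [Function.comp, Nat.succ_eq_add_one, zero_add] at h1
  rw [Stirling.stirlingSeq_one] at h1
  unfold Stirling.stirlingSeq at h1
  have hk0 : (0:ℝ) < ((n + 1 : ℕ) : ℝ) := by positivity
  have h2 : 0 < Real.sqrt (2 * ((n + 1 : ℕ) : ℝ)) * (((n + 1 : ℕ) : ℝ) / Real.exp 1) ^ (n + 1) := by positivity
  rw [div_le_iff₀ h2] at h1
  refine h1.trans ?_
  rw [Real.sqrt_mul (by norm_num)]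
  have h3 : 0 < Real.sqrt 2 := by positivity
  have h4 := Real.exp_one_lt_d9
  have e : Real.exp 1 / Real.sqrt 2 * (Real.sqrt 2 * Real.sqrt ((n + 1 : ℕ) : ℝ) *
      (((n + 1 : ℕ) : ℝ) / Real.exp 1) ^ (n + 1)) =
      Real.exp 1 * (Real.sqrt ((n + 1 : ℕ) : ℝ) * (((n + 1 : ℕ) : ℝ) / Real.exp 1) ^ (n + 1)) := by
    field_simp
  rw [e, mul_assoc]
  refine mul_le_mul_of_nonneg_right (by linarith) (by positivity)

lemma kern_le {k : ℕ} (hk : 1 ≤ k) {b t : ℝ} (hb : 0 < b) (ht : 0 < t) :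
    (t / b * Real.exp (1 - t / b)) ^ k ≤ 3 * (b / Real.sqrt k) * om k (k / b) t := by
  have hk0 : (0:ℝ) < k := by exact_mod_cast hk
  have h1 := fact_le hk
  have hf : (0:ℝ) < (k.factorial : ℝ) := by positivity
  have hs : 0 < Real.sqrt k := Real.sqrt_pos.mpr hk0
  have hss : Real.sqrt k * Real.sqrt k = k := Real.mul_self_sqrt hk0.le
  unfold om
  have e1 : 3 * (b / Real.sqrt k) * (((k:ℝ) / b) ^ (k + 1) * t ^ k * Real.exp (-((k:ℝ) / b * t)) / (k.factorial : ℝ)) =
      (t / b) ^ k * Real.exp (-(k * (t / b))) * (3 * Real.sqrt k * (k:ℝ) ^ k / (k.factorial : ℝ)) := by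
    rw [pow_succ, div_pow, div_pow, show (k:ℝ) / b * t = k * (t / b) by ring]
    field_simp
    rw [sq, hss]
  rw [e1]
  have e2 : (t / b * Real.exp (1 - t / b)) ^ k = (t / b) ^ k * Real.exp (-(k * (t / b))) * Real.exp k := by
    rw [mul_pow, ← Real.exp_nat_mul, mul_assoc, ← Real.exp_add]
    congr 2; ring
  rw [e2]
  refine mul_le_mul_of_nonneg_left ?_ (by positivity)
  rw [le_div_iff₀ hf]
  have e3 : ((k:ℝ) / Real.exp 1) ^ k = (k:ℝ) ^ k / Real.exp k := by
    rw [div_pow, ← Real.exp_nat_mul, mul_one]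
  rw [e3] at h1
  calc Real.exp k * (k.factorial : ℝ) ≤ Real.exp k * (3 * Real.sqrt k * ((k:ℝ) ^ k / Real.exp k)) :=
        mul_le_mul_of_nonneg_left h1 (Real.exp_pos _).le
    _ = _ := by field_simp

/-- the error of the cutoff -/
noncomputable def Eb (k : ℕ) (b t : ℝ) : ℝ := (if t ≤ b then (1:ℝ) else 0) - Ph k (k * t / b)

lemma Eb_le {k : ℕ} (hk : 1 ≤ k) {b t : ℝ} (hb : 0 < b) (ht : 0 < t) :
    |Eb k b t| ≤ 3 * (b / Real.sqrt k) * om k (k / b) t := by
  refine le_trans ?_ (kern_le hk hb ht)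
  have hv : 0 < t / b := by positivity
  unfold Eb
  rw [mul_div_assoc]
  split_ifs with h
  · have h1 : t / b ≤ 1 := by rw [div_le_one hb]; exact h
    have h2 := Ph_low k hv.le h1
    have h3 := Ph_le_one k (u := k * (t / b)) (by positivity)
    rw [abs_of_nonneg (by linarith)]
    linarith
  · have h1 : 1 ≤ t / b := by rw [one_le_div hb]; linarith
    have h2 := Ph_chernoff k h1
    have h3 := Ph_nonneg k (u := k * (t / b)) (by positivity)
    rw [zero_sub, abs_neg, abs_of_nonneg h3]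
    exact h2

lemma Ph_cont (k : ℕ) : Continuous (Ph k) := by
  unfold Ph
  fun_prop

lemma om_x_int {k : ℕ} (hk : 1 ≤ k) {t a b : ℝ} (ht : 0 < t) (ha : 0 < a) (hab : a ≤ b) :
    ∫ x in Set.Ioc a b, om k (k / x) t = Ph k (k * t / b) - Ph k (k * t / a) := by
  have hcont : ContinuousOn (fun x : ℝ => om k (k / x) t) (Set.uIcc a b) := by
    rw [Set.uIcc_of_le hab]
    unfold om
    have h1 : ContinuousOn (fun x : ℝ => (k : ℝ) / x) (Set.Icc a b) :=
      continuousOn_const.div continuousOn_id fun x hx => (ha.trans_le hx.1).ne'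
    exact (((h1.pow _).mul continuousOn_const).mul
      ((h1.mul continuousOn_const).neg.rexp)).div_const _
  have hint : IntervalIntegrable (fun x : ℝ => om k (k / x) t) volume a b :=
    hcont.intervalIntegrable
  have h1 : ∫ x in a..b, om k (k / x) t = Ph k (k * t / b) - Ph k (k * t / a) := by
    apply intervalIntegral.integral_eq_sub_of_hasDerivAt (f := fun y => Ph k (k * t / y)) _ hint
    intro x hx
    rw [Set.uIcc_of_le hab] at hx
    exact W_hasDeriv hk ht (ha.trans_le hx.1)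
  rwa [intervalIntegral.integral_of_le hab] at h1

section
variable {F : ℝ → ℝ} {K : ℝ} {k : ℕ}

lemma iE (hF : Continuous F) (hK : ∀ t, 0 ≤ t → |F t| ≤ K * (1 + t) ^ 6) (hk : 1 ≤ k) {c : ℝ} (hc : 0 < c) :
    IntegrableOn (fun t => Eb k c t * F t) (Set.Ioi 0) ∧
    |∫ t in Set.Ioi (0:ℝ), Eb k c t * F t| ≤
      3 * (c / Real.sqrt k) * ∫ t in Set.Ioi (0:ℝ), om k (k / c) t * |F t| := by
  have hk0 : (0:ℝ) < k := by exact_mod_cast hk
  have h1 : IntegrableOn (fun t => om k (k / c) t * |F t|) (Set.Ioi 0) :=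
    om_poly_int (by positivity) hF.abs (C := K) 6 (fun t ht => by rw [abs_abs]; exact hK t ht)
  have h2 : IntegrableOn (fun t => 3 * (c / Real.sqrt k) * (om k (k / c) t * |F t|)) (Set.Ioi 0) := h1.const_mul _
  have hle : ∀ t ∈ Set.Ioi (0:ℝ), ‖Eb k c t * F t‖ ≤ 3 * (c / Real.sqrt k) * (om k (k / c) t * |F t|) := by
    intro t ht
    rw [Real.norm_eq_abs, abs_mul]
    have := mul_le_mul_of_nonneg_right (Eb_le hk hc ht) (abs_nonneg (F t))
    linarith
  have hmeas : Measurable (fun t => Eb k c t * F t) := by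
    unfold Eb
    refine Measurable.mul (Measurable.sub ?_ ?_) hF.measurable
    · exact Measurable.ite measurableSet_Iic measurable_const measurable_const
    · exact ((Ph_cont k).comp (by fun_prop)).measurable
  constructor
  · refine Integrable.mono' h2 hmeas.aestronglyMeasurable ?_
    exact (ae_restrict_iff' measurableSet_Ioi).mpr (Eventually.of_forall hle)
  · rw [← integral_const_mul, ← Real.norm_eq_abs]
    refine norm_integral_le_of_norm_le h2 ?_
    exact (ae_restrict_iff' measurableSet_Ioi).mpr (Eventually.of_forall hle)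

lemma iI (hF : Continuous F) {c : ℝ} (hc : 0 < c) :
    IntegrableOn (fun t => (if t ≤ c then (1:ℝ) else 0) * F t) (Set.Ioi 0) ∧
    ∫ t in Set.Ioi (0:ℝ), (if t ≤ c then (1:ℝ) else 0) * F t = ∫ t in (0:ℝ)..c, F t := by
  have e : ∀ t, (if t ≤ c then (1:ℝ) else 0) * F t = (Set.Iic c).indicator F t := by
    intro t
    rw [Set.indicator_apply]
    by_cases h : t ≤ c
    · rw [if_pos h, if_pos (show t ∈ Set.Iic c from h), one_mul]
    · rw [if_neg h, if_neg (show ¬ t ∈ Set.Iic c from h), zero_mul]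
  have es : Set.Ioi (0:ℝ) ∩ Set.Iic c = Set.Ioc 0 c := Set.Ioi_inter_Iic
  simp_rw [e]
  constructor
  · rw [IntegrableOn, integrable_indicator_iff measurableSet_Iic, IntegrableOn,
      Measure.restrict_restrict measurableSet_Iic, Set.inter_comm, es]
    exact (hF.intervalIntegrable 0 c).1
  · rw [setIntegral_indicator measurableSet_Iic, es, intervalIntegral.integral_of_le hc.le]

lemma iP (hF : Continuous F) (hK : ∀ t, 0 ≤ t → |F t| ≤ K * (1 + t) ^ 6) (hk : 1 ≤ k) {c : ℝ} (hc : 0 < c) :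
    IntegrableOn (fun t => Ph k (k * t / c) * F t) (Set.Ioi 0) ∧
    ∫ t in Set.Ioi (0:ℝ), Ph k (k * t / c) * F t =
      (∫ t in (0:ℝ)..c, F t) - ∫ t in Set.Ioi (0:ℝ), Eb k c t * F t := by
  obtain ⟨h1, _⟩ := iE hF hK hk hc
  obtain ⟨h3, h4⟩ := iI hF hc
  have e : (fun t => Ph k (k * t / c) * F t) = fun t => (if t ≤ c then (1:ℝ) else 0) * F t - Eb k c t * F t := by
    funext t; unfold Eb; ring
  rw [e]
  exact ⟨h3.sub h1, by rw [integral_sub h3 h1, h4]⟩

/-- the general comparison -/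
theorem sharp (hF : Continuous F) (hK : ∀ t, 0 ≤ t → |F t| ≤ K * (1 + t) ^ 6) (hk : 1 ≤ k) {a b : ℝ} (ha : 0 < a)
    (hab : a ≤ b) :
    IntervalIntegrable (fun x => ∫ t in Set.Ioi (0:ℝ), om k (k / x) t * F t) volume a b ∧
    |(∫ t in (0:ℝ)..b, F t) - ∫ x in a..b, ∫ t in Set.Ioi (0:ℝ), om k (k / x) t * F t| ≤
      (∫ t in (0:ℝ)..a, |F t|) + 3 * (a / Real.sqrt k) * (∫ t in Set.Ioi (0:ℝ), om k (k / a) t * |F t|) +
      3 * (b / Real.sqrt k) * ∫ t in Set.Ioi (0:ℝ), om k (k / b) t * |F t| := by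
  have hk0 : (0:ℝ) < k := by exact_mod_cast hk
  have hb : 0 < b := ha.trans_le hab
  have h1 : IntegrableOn (fun t => om k (k / b) t * |F t|) (Set.Ioi 0) :=
    om_poly_int (by positivity) hF.abs (C := K) 6 (fun t ht => by rw [abs_abs]; exact hK t ht)
  have hmeas : Measurable (Function.uncurry fun (x t : ℝ) => om k (k / x) t * F t) := by
    unfold om Function.uncurry
    have := hF.measurable
    fun_prop
  have hdom : ∀ x ∈ Set.Ioc a b, ∀ t ∈ Set.Ioi (0:ℝ), om k (k / x) t ≤ (b / a) ^ (k + 1) * om k (k / b) t := by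
    intro x hx t ht
    have hx0 : 0 < x := ha.trans hx.1
    have ht0 : 0 < t := ht
    unfold om
    have e1 : ((k:ℝ) / x) ^ (k + 1) ≤ (b / a) ^ (k + 1) * ((k:ℝ) / b) ^ (k + 1) := by
      rw [← mul_pow]
      refine pow_le_pow_left₀ (by positivity) ?_ _
      have : b / a * ((k:ℝ) / b) = k / a := by field_simp
      rw [this]
      exact div_le_div_of_nonneg_left hk0.le ha hx.1.le
    have e2 : Real.exp (-((k:ℝ) / x * t)) ≤ Real.exp (-((k:ℝ) / b * t)) := by
      refine Real.exp_le_exp.mpr (neg_le_neg ?_)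
      refine mul_le_mul_of_nonneg_right ?_ ht0.le
      exact div_le_div_of_nonneg_left hk0.le hx0 hx.2
    calc ((k:ℝ) / x) ^ (k + 1) * t ^ k * Real.exp (-((k:ℝ) / x * t)) / (k.factorial : ℝ) ≤
        ((b / a) ^ (k + 1) * ((k:ℝ) / b) ^ (k + 1)) * t ^ k * Real.exp (-((k:ℝ) / b * t)) / (k.factorial : ℝ) := by
          gcongr
      _ = _ := by ring
  have hprod : Integrable (Function.uncurry fun (x t : ℝ) => om k (k / x) t * F t)
      ((volume.restrict (Set.Ioc a b)).prod (volume.restrict (Set.Ioi 0))) := by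
    have hg : Integrable (fun p : ℝ × ℝ => (1:ℝ) * ((b / a) ^ (k + 1) * (om k (k / b) p.2 * |F p.2|)))
        ((volume.restrict (Set.Ioc a b)).prod (volume.restrict (Set.Ioi 0))) :=
      Integrable.mul_prod (f := fun _ : ℝ => (1:ℝ)) (integrable_const 1) (h1.const_mul ((b / a) ^ (k + 1)))
    refine Integrable.mono' hg hmeas.aestronglyMeasurable ?_
    rw [Measure.prod_restrict]
    refine (ae_restrict_iff' (measurableSet_Ioc.prod measurableSet_Ioi)).mpr (Eventually.of_forall fun p hp => ?_)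
    obtain ⟨hp1, hp2⟩ := hp
    have ht0 : 0 < p.2 := hp2
    have hx0 : 0 < p.1 := ha.trans hp1.1
    simp only [Function.uncurry]
    rw [Real.norm_eq_abs, abs_mul, abs_of_nonneg (om_nonneg (by positivity) ht0.le), one_mul]
    have := mul_le_mul_of_nonneg_right (hdom p.1 hp1 p.2 hp2) (abs_nonneg (F p.2))
    linarith
  constructor
  · rw [intervalIntegrable_iff_integrableOn_Ioc_of_le hab]
    exact hprod.integral_prod_left
  · have hswap := integral_integral_swap hprod
    rw [intervalIntegral.integral_of_le hab, hswap]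
    obtain ⟨b1, b2⟩ := iE hF hK hk hb
    obtain ⟨a1, a2⟩ := iE hF hK hk ha
    obtain ⟨b3, b4⟩ := iP hF hK hk hb
    obtain ⟨a3, a4⟩ := iP hF hK hk ha
    have e1 : ∫ t in Set.Ioi (0:ℝ), ∫ x in Set.Ioc a b, om k (k / x) t * F t =
        ∫ t in Set.Ioi (0:ℝ), (Ph k (k * t / b) * F t - Ph k (k * t / a) * F t) := by
      refine setIntegral_congr_fun measurableSet_Ioi fun t ht => ?_
      have h6 : ∫ x in Set.Ioc a b, om k (k / x) t * F t = Ph k (k * t / b) * F t - Ph k (k * t / a) * F t := by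
        rw [integral_mul_const, om_x_int hk ht ha hab]
        ring
      exact h6
    rw [e1, integral_sub b3 a3, b4, a4]
    have e2 : (∫ t in (0:ℝ)..b, F t) - (((∫ t in (0:ℝ)..b, F t) - ∫ t in Set.Ioi (0:ℝ), Eb k b t * F t) -
        ((∫ t in (0:ℝ)..a, F t) - ∫ t in Set.Ioi (0:ℝ), Eb k a t * F t)) =
        (∫ t in (0:ℝ)..a, F t) - (∫ t in Set.Ioi (0:ℝ), Eb k a t * F t) +
          ∫ t in Set.Ioi (0:ℝ), Eb k b t * F t := by ring
    rw [e2]
    have h5 : |∫ t in (0:ℝ)..a, F t| ≤ ∫ t in (0:ℝ)..a, |F t| :=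
      intervalIntegral.abs_integral_le_integral_abs ha.le
    refine (abs_add_le _ _).trans ?_
    refine add_le_add ((abs_sub _ _).trans (add_le_add h5 a2)) b2

end

end Pool.Agent.H998_LP
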