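import Pool.Agent.H998_LP.Win
import Pool.Agent.H998_LP.Cut

set_option autoImplicit false

/-! The moments over `[0, T]` with a linear error. -/

namespace Pool.Agent.H998_LP

open Finset Filter MeasureTheory Topology
open Pool.Agent.W184.NZ
open Pool.Agent.H306R2.SM (om cl Yf)
open Pool.Agent.H262R4.TM (Rng Ck)
open Pool.Agent.TH806 (BL two_avg yf_bound Xz Xz_nonneg Xz_cont Xz_pow_cont Xz_pow_le
  iX om_nn om_poly_int win_mom mom_T om_four)

lemma log_pow_le2 {s : ℝ} (hs : 0 < s) {u β : ℝ} (hu : 0 < u) (h1 : 1 ≤ β) (h2 : β ≤ 2 + s / 2) :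
    u ^ β * |Real.log u| ≤ (1 + 2 / s) * (1 + u ^ (2 + s)) := by
  have hu4 : 0 < u ^ (2 + s) := by positivity
  have hs2 : 0 < 2 / s := by positivity
  rcases le_total 1 u with h | h
  · have h4 : |Real.log u| ≤ 2 / s * u ^ (s / 2) := by
      rw [abs_of_nonneg (Real.log_nonneg h)]
      have := Real.log_le_rpow_div hu.le (show 0 < s / 2 by positivity)
      refine this.trans (le_of_eq ?_)
      field_simp
    have h5 : u ^ β * u ^ (s / 2) ≤ u ^ (2 + s) := by
      rw [← Real.rpow_add hu]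
      exact Real.rpow_le_rpow_of_exponent_le h (by linarith)
    calc u ^ β * |Real.log u| ≤ u ^ β * (2 / s * u ^ (s / 2)) := by gcongr
      _ = 2 / s * (u ^ β * u ^ (s / 2)) := by ring
      _ ≤ 2 / s * u ^ (2 + s) := by gcongr
      _ ≤ _ := by nlinarith
  · have h4 : |Real.log u| ≤ u⁻¹ := by
      rw [← abs_neg, ← Real.log_inv, abs_of_nonneg (Real.log_nonneg ((one_le_inv₀ hu).mpr h))]
      have := Real.log_le_sub_one_of_pos (inv_pos.mpr hu)
      linarith
    have h5 : u ^ β ≤ u := by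
      calc u ^ β ≤ u ^ (1:ℝ) := Real.rpow_le_rpow_of_exponent_ge hu h h1
        _ = u := Real.rpow_one u
    calc u ^ β * |Real.log u| ≤ u * u⁻¹ := by gcongr
      _ = 1 := by field_simp
      _ ≤ _ := by nlinarith

lemma pow_le_one_add {u α β : ℝ} (hu : 0 ≤ u) (h0 : 0 ≤ α) (h : α ≤ β) : u ^ α ≤ 1 + u ^ β := by
  have hb : 0 ≤ u ^ β := Real.rpow_nonneg hu _
  rcases le_total 1 u with h1 | h1
  · have := Real.rpow_le_rpow_of_exponent_le h1 h
    linarith
  · have := Real.rpow_le_one hu h1 h0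
    linarith

/-- the bound of the difference -/
lemma FX_le {s : ℝ} (hs : 0 < s) (hs1 : s ≤ 1 / 40) {D L V a t : ℝ} (hL : 1 ≤ L) (hD : 0 ≤ D)
    (hV0 : 0 ≤ V) (hV : V ≤ Real.log L + D) (hVL : V ≤ L ^ (1 / 4 : ℝ)) (ha : |a| ≤ s / 4) :
    |FX a V t| ≤ |a| * ((2 * (1 + 2 / s) + 3) * (1 + Real.exp D) * L ^ (1 / 2 : ℝ) * (1 + Xz t ^ (2 + s))) := by
  have ha0 := abs_nonneg a
  obtain ⟨ha1, ha2⟩ := abs_le.mp ha
  have hL0 : 0 < L := by linarith
  set Q := 1 + Xz t ^ (2 + s) with hQ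
  have hX0 := Xz_nonneg t
  have hXs : 0 ≤ Xz t ^ (2 + s) := Real.rpow_nonneg hX0 _
  have hQ1 : 1 ≤ Q := by linarith
  set q := L ^ (1 / 4 : ℝ) with hq
  have hq1 : 1 ≤ q := Real.one_le_rpow hL (by norm_num)
  have hqq : L ^ (1 / 2 : ℝ) = q * q := by rw [hq, ← Real.rpow_add hL0]; norm_num
  have hs2 : 0 < 2 / s := by positivity
  rcases hX0.eq_or_lt with h | h
  · unfold FX
    rw [← h, Real.zero_rpow (by linarith)]
    simp only [mul_zero, ne_eq, OfNat.ofNat_ne_zero, not_false_eq_true, zero_pow, sub_zero, abs_zero]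
    positivity
  · set ℓ := Real.log (Xz t) with hℓ
    set v := 2 * a * ℓ - (a ^ 2 + 2 * a) * V with hv
    set E' := Real.exp (-((a ^ 2 + 2 * a) * V)) with hE'
    have hE'0 : 0 < E' := Real.exp_pos _
    have e1 : E' * Xz t ^ (2 + 2 * a) = Xz t ^ 2 * Real.exp v := by
      rw [Real.rpow_add h, Real.rpow_def_of_pos h (2 * a), hv, sub_eq_add_neg, Real.exp_add, ← hE']
      have : Xz t ^ (2:ℝ) = Xz t ^ 2 := by rw [← Real.rpow_natCast]; norm_num
      rw [this, show Real.log (Xz t) * (2 * a) = 2 * a * ℓ by rw [hℓ]; ring]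
      ring
    have haa : |a ^ 2 + 2 * a| ≤ 3 * |a| := by
      refine (abs_add_le _ _).trans ?_
      rw [abs_mul, abs_two, abs_pow]
      nlinarith
    have hvb : |v| ≤ |a| * (2 * |ℓ| + 3 * V) := by
      rw [hv]
      refine (abs_sub _ _).trans ?_
      rw [abs_mul, abs_mul, abs_mul, abs_two, abs_of_nonneg hV0]
      have := mul_le_mul_of_nonneg_right haa hV0
      linarith
    have h1 := abs_exp_sub v
    have e2 : FX a V t = Xz t ^ 2 * (Real.exp v - 1) := by
      unfold FX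
      rw [← hE', e1]; ring
    have hX2 : 0 < Xz t ^ 2 := by positivity
    have hE'q : E' ≤ Real.exp D * q := by
      have h2 : -((a ^ 2 + 2 * a) * V) ≤ 1 / 4 * V := by
        have h3 := (abs_le.mp haa).1
        have h4 : -(a ^ 2 + 2 * a) ≤ 1 / 4 := by linarith
        have := mul_le_mul_of_nonneg_right h4 hV0
        linarith
      have h3 : 1 / 4 * V ≤ Real.log L * (1 / 4) + D := by linarith
      calc E' ≤ Real.exp (Real.log L * (1 / 4) + D) := Real.exp_le_exp.mpr (h2.trans h3)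
        _ = Real.exp D * q := by
            rw [Real.exp_add, hq, Real.rpow_def_of_pos hL0]; ring
    have c1 : Xz t ^ 2 * |ℓ| ≤ (1 + 2 / s) * Q := by
      have := log_pow_le2 hs h (β := 2) (by norm_num) (by linarith)
      have e : Xz t ^ (2:ℝ) = Xz t ^ 2 := by rw [← Real.rpow_natCast]; norm_num
      rwa [e] at this
    have c2 : Xz t ^ (2 + 2 * a) * |ℓ| ≤ (1 + 2 / s) * Q :=
      log_pow_le2 hs h (β := 2 + 2 * a) (by linarith) (by linarith)
    have c3 : Xz t ^ 2 ≤ Q := by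
      have := pow_le_one_add hX0 (α := 2) (β := 2 + s) (by norm_num) (by linarith)
      have e : Xz t ^ (2:ℝ) = Xz t ^ 2 := by rw [← Real.rpow_natCast]; norm_num
      rwa [e] at this
    have c4 : Xz t ^ (2 + 2 * a) ≤ Q := pow_le_one_add hX0 (by linarith) (by linarith)
    have hX2a : 0 ≤ Xz t ^ (2 + 2 * a) := Real.rpow_nonneg hX0 _
    have hl0 := abs_nonneg ℓ
    have hQ0 : 0 ≤ Q := by linarith
    have hq0 : 0 ≤ q := by linarith
    have hexpD : 0 < Real.exp D := Real.exp_pos D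
    set cs := 1 + 2 / s with hcs
    have hcs0 : 0 < cs := by positivity
    have d1 : 2 * (Xz t ^ 2 * |ℓ|) ≤ 2 * cs * (q * q * Q) := by
      have : Q ≤ q * q * Q := le_mul_of_one_le_left hQ0 (by nlinarith)
      nlinarith
    have d2 : 2 * (E' * (Xz t ^ (2 + 2 * a) * |ℓ|)) ≤ 2 * cs * Real.exp D * (q * q * Q) := by
      calc 2 * (E' * (Xz t ^ (2 + 2 * a) * |ℓ|)) ≤ 2 * ((Real.exp D * q) * (cs * Q)) := by gcongr
        _ = 2 * cs * Real.exp D * (q * 1 * Q) := by ring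
        _ ≤ _ := by gcongr
    have d3 : 3 * V * Xz t ^ 2 ≤ 3 * (q * q * Q) := by
      calc 3 * V * Xz t ^ 2 ≤ 3 * q * Q := by gcongr
        _ = 3 * (q * 1 * Q) := by ring
        _ ≤ _ := by gcongr
    have d4 : 3 * V * (E' * Xz t ^ (2 + 2 * a)) ≤ 3 * Real.exp D * (q * q * Q) := by
      calc 3 * V * (E' * Xz t ^ (2 + 2 * a)) ≤ 3 * q * ((Real.exp D * q) * Q) := by gcongr
        _ = _ := by ring
    rw [e2, abs_mul, abs_of_pos hX2, hqq]
    calc Xz t ^ 2 * |Real.exp v - 1| ≤ Xz t ^ 2 * (|v| * (1 + Real.exp v)) := by gcongr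
      _ = |v| * (Xz t ^ 2 + E' * Xz t ^ (2 + 2 * a)) := by rw [e1]; ring
      _ ≤ (|a| * (2 * |ℓ| + 3 * V)) * (Xz t ^ 2 + E' * Xz t ^ (2 + 2 * a)) := by gcongr
      _ = |a| * (2 * (Xz t ^ 2 * |ℓ|) + 2 * (E' * (Xz t ^ (2 + 2 * a) * |ℓ|)) + 3 * V * Xz t ^ 2 +
          3 * V * (E' * Xz t ^ (2 + 2 * a))) := by ring
      _ ≤ |a| * (2 * cs * (q * q * Q) + 2 * cs * Real.exp D * (q * q * Q) + 3 * (q * q * Q) +
          3 * Real.exp D * (q * q * Q)) := by gcongr
      _ = _ := by ring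

lemma om_one (k : ℕ) {δ : ℝ} (hδ : 0 < δ) : ∫ t in Set.Ioi (0:ℝ), om k δ t = 1 := by
  have h := om_four k hδ 0
  simp only [Complex.ofReal_zero, zero_mul, Complex.exp_zero, mul_one, sub_zero] at h
  have hd : (δ:ℂ) ≠ 0 := by exact_mod_cast hδ.ne'
  rw [div_self hd, one_pow, integral_complex_ofReal] at h
  exact_mod_cast h

/-- the parameter of the windows -/
noncomputable def kT (T : ℝ) : ℕ := ⌈Real.log T ^ 2⌉₊

lemma kT_props {T : ℝ} (hT : 1 ≤ T) (hL : 2 ≤ Real.log T) : 1 ≤ kT T ∧ Real.log T ≤ Real.sqrt (kT T) ∧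
    ∀ x ∈ Set.Icc (T ^ ((3:ℝ) / 4)) T, Rng x (kT T) := by
  have hT0 : 0 < T := by linarith
  have h1 : Real.log T ^ 2 ≤ kT T := Nat.le_ceil _
  have h2 : (kT T : ℝ) < Real.log T ^ 2 + 1 := Nat.ceil_lt_add_one (by positivity)
  refine ⟨?_, ?_, ?_⟩
  · have h3 : (1:ℝ) ≤ kT T := by nlinarith
    exact_mod_cast h3
  · exact Real.le_sqrt_of_sq_le h1
  · intro x hx
    have hx0 : 0 < x := lt_of_lt_of_le (by positivity) hx.1
    have h3 : Real.log x ≤ Real.log T := Real.log_le_log hx0 hx.2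
    have h4 : 3 / 4 * Real.log T ≤ Real.log x := by
      have := Real.log_le_log (by positivity) hx.1
      rwa [Real.log_rpow hT0] at this
    constructor
    · have : Real.log x ^ 2 ≤ Real.log T ^ 2 := pow_le_pow_left₀ (by linarith) h3 2
      linarith
    · have : (3 / 4 * Real.log T) ^ 2 ≤ Real.log x ^ 2 := pow_le_pow_left₀ (by linarith) h4 2
      nlinarith

/-- the second moment -/
theorem sec_mom : ∃ C : ℝ, 0 < C ∧ ∀ᶠ T : ℝ in atTop, |(∫ t in (0:ℝ)..T, Xz t ^ 2) - T * Real.log T| ≤ C * T := by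
  obtain ⟨η, hη, h⟩ := two_avg
  obtain ⟨T0, hT0⟩ := eventually_atTop.1 h
  obtain ⟨δ, hδ, _, hmom⟩ := mom_T (ε := 1) one_pos
  have ht : Tendsto (fun T : ℝ => T ^ ((3:ℝ) / 4)) atTop atTop := tendsto_rpow_atTop (by norm_num)
  have hsm : ∀ᶠ T : ℝ in atTop, 2 * Real.log T ≤ T ^ (1 / 4 : ℝ) := by
    have h1 := (isLittleO_log_rpow_atTop (r := 1 / 4) (by norm_num)).bound (c := 1 / 2) (by norm_num)
    filter_upwards [h1, eventually_ge_atTop (1:ℝ)] with T hT hT1
    rw [Real.norm_of_nonneg (Real.log_nonneg hT1), Real.norm_of_nonneg (by positivity)] at hT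
    linarith
  refine ⟨100, by norm_num, ?_⟩
  filter_upwards [ht.eventually_ge_atTop (max 1 T0), ht.eventually hmom, hsm, eventually_ge_atTop (1:ℝ),
    Real.tendsto_log_atTop.eventually_ge_atTop 8] with T hTT hmom hsm hT1 hL4
  have hTp : 0 < T := by linarith
  set L := Real.log T with hL
  set A := T ^ ((3:ℝ) / 4) with hA
  have hA1 : 1 ≤ A := (le_max_left _ _).trans hTT
  have hA0 : 0 < A := by linarith
  have hAT : A ≤ T := by
    calc A ≤ T ^ (1:ℝ) := Real.rpow_le_rpow_of_exponent_le hT1 (by norm_num)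
      _ = T := Real.rpow_one T
  have hlA : Real.log A = 3 / 4 * L := Real.log_rpow hTp _
  have hAL : A * (2 * L) ≤ T := by
    calc A * (2 * L) ≤ A * T ^ (1 / 4 : ℝ) := by gcongr
      _ = T := by rw [hA, ← Real.rpow_add hTp]; norm_num
  obtain ⟨hk1, hkL, hR⟩ := kT_props hT1 (by linarith)
  set k := kT T with hk
  have hk0 : (0:ℝ) < k := by exact_mod_cast hk1
  have hw : ∀ x ∈ Set.Icc A T, |(∫ t in Set.Ioi (0:ℝ), om k (k / x) t * Xz t ^ 2) - Real.log x| ≤ 4 := by
    intro x hx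
    have hx0 : 0 < x := hA0.trans_le hx.1
    have hx1 : 1 ≤ x := hA1.trans hx.1
    have h1 := hT0 x (((le_max_right _ _).trans hTT).trans hx.1) k (hR x hx) 1
      (Bd.one.mono (Real.one_le_rpow hx1 (by norm_num)))
    have e10 : ∀ t, (ev t (1:DA)).re = 1 := fun t => by rw [map_one]; simp
    simp_rw [e10, mul_one] at h1
    have e11 : lam wl (1:DA) = 0 := by
      rw [MonoidAlgebra.one_def, lam_single]
      unfold wl
      simp
    rw [lam_one goodW1, e11, l1_one, mul_one, sub_zero, mul_one] at h1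
    have h2 := yf_bound hk1 hx0
    have h3 : x ^ (-η) ≤ 1 := Real.rpow_le_one_of_one_le_of_nonpos hx1 (by linarith)
    have h4 := abs_sub_le (∫ t in Set.Ioi (0:ℝ), wz k x t) (Real.log (Yf k x) + Ck k) (Real.log x)
    have e : ∀ t, om k (k / x) t * Xz t ^ 2 = wz k x t := fun t => by unfold wz Xz; rfl
    simp_rw [e]
    linarith
  have hK : ∀ t, 0 ≤ t → |Xz t ^ 2| ≤ 24 ^ 3 * (1 + t) ^ 6 := by
    intro t ht
    rw [abs_of_nonneg (by positivity)]
    have := Xz_pow_le (β := 2) (by norm_num) (by norm_num) ht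
    have e : Xz t ^ (2:ℝ) = Xz t ^ 2 := by rw [← Real.rpow_natCast]; norm_num
    rwa [e] at this
  obtain ⟨i1, h1⟩ := sharp (F := fun t => Xz t ^ 2) (Xz_cont.pow 2) hK hk1 hA0 hAT
  have habs : ∀ t, |Xz t ^ 2| = Xz t ^ 2 := fun t => abs_of_nonneg (by positivity)
  simp_rw [habs] at h1
  have hwA := abs_le.mp (hw A ⟨le_rfl, hAT⟩)
  have hwT := abs_le.mp (hw T ⟨hAT, le_rfl⟩)
  -- the initial segment
  have hm := (abs_le.mp (hmom 2 (by rw [sub_self, abs_zero]; exact hδ.le))).2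
  have e2 : ∀ t, Xz t ^ (2:ℝ) = Xz t ^ 2 := fun t => by rw [← Real.rpow_natCast]; norm_num
  simp_rw [e2] at hm
  have e3 : Real.log A ^ ((2:ℝ) ^ 2 / 4) = Real.log A := by norm_num
  rw [e3] at hm
  have hseg : ∫ t in (0:ℝ)..A, Xz t ^ 2 ≤ T := by
    have : A * Real.log A ≤ A * L := by rw [hlA]; gcongr; linarith
    linarith
  -- the integral of the windows
  have hint : |(∫ x in A..T, ∫ t in Set.Ioi (0:ℝ), om k (k / x) t * Xz t ^ 2) - ∫ x in A..T, Real.log x| ≤ 4 * T := by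
    rw [← intervalIntegral.integral_sub i1 intervalIntegral.intervalIntegrable_log']
    have := intervalIntegral.norm_integral_le_of_norm_le_const (a := A) (b := T)
      (f := fun x => (∫ t in Set.Ioi (0:ℝ), om k (k / x) t * Xz t ^ 2) - Real.log x) (C := 4) (fun x hx => by
        rw [Set.uIoc_of_le hAT] at hx
        rw [Real.norm_eq_abs]
        exact hw x ⟨hx.1.le, hx.2⟩)
    rw [Real.norm_eq_abs] at this
    refine this.trans ?_
    rw [abs_of_nonneg (by linarith)]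
    linarith
  have hlog : |(∫ x in A..T, Real.log x) - T * L| ≤ 2 * T := by
    rw [integral_log, hlA]
    have : A * (3 / 4 * L) ≤ 3 / 8 * T := by linarith
    have h0 : 0 ≤ A * (3 / 4 * L) := by positivity
    rw [abs_le]; constructor <;> linarith
  have hsq : ∀ b : ℝ, 0 ≤ b → b / Real.sqrt k ≤ b / L := fun b hb =>
    div_le_div_of_nonneg_left hb (by linarith) hkL
  have hL0 : 0 < L := by linarith
  have t1 : 3 * (A / Real.sqrt k) * (∫ t in Set.Ioi (0:ℝ), om k (k / A) t * Xz t ^ 2) ≤ 6 * T := by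
    have h5 : (∫ t in Set.Ioi (0:ℝ), om k (k / A) t * Xz t ^ 2) ≤ 2 * L := by
      have := hwA.2; rw [hlA] at this; linarith
    have h6 : 0 ≤ ∫ t in Set.Ioi (0:ℝ), om k (k / A) t * Xz t ^ 2 := by
      have := hwA.1; rw [hlA] at this; linarith
    calc _ ≤ 3 * (A / L) * (2 * L) := by
          have := hsq A hA0.le
          gcongr
      _ = 6 * A := by field_simp; norm_num
      _ ≤ _ := by linarith
  have t2 : 3 * (T / Real.sqrt k) * (∫ t in Set.Ioi (0:ℝ), om k (k / T) t * Xz t ^ 2) ≤ 6 * T := by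
    have h5 : (∫ t in Set.Ioi (0:ℝ), om k (k / T) t * Xz t ^ 2) ≤ 2 * L := by
      have := hwT.2; linarith
    have h6 : 0 ≤ ∫ t in Set.Ioi (0:ℝ), om k (k / T) t * Xz t ^ 2 := by
      have := hwT.1; linarith
    calc _ ≤ 3 * (T / L) * (2 * L) := by
          have := hsq T hTp.le
          gcongr
      _ = 6 * T := by field_simp; norm_num
  have h2 := abs_le.mp h1
  have h3 := abs_le.mp hint
  have h4 := abs_le.mp hlog
  rw [abs_le]
  constructor <;> linarith

end Pool.Agent.H998_LP
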