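import Pool.Agent.H998_LP.Fin

set_option autoImplicit false

/-! The difference over `[0, T]`. -/

namespace Pool.Agent.H998_LP

open Finset Filter MeasureTheory Topology
open Pool.Agent.W184.NZ
open Pool.Agent.H306R2.SM (om cl Yf)
open Pool.Agent.H262R4.TM (Rng Ck)
open Pool.Agent.TH806 (BL two_avg yf_bound Xz Xz_nonneg Xz_cont Xz_pow_cont Xz_pow_le
  iX om_nn om_poly_int win_mom mom_T om_four)

lemma FX_cont {a V : ℝ} (ha : |a| ≤ 1 / 4) : Continuous (FX a V) := by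
  unfold FX
  have h := (abs_le.mp ha).1
  exact (continuous_const.mul (Xz_pow_cont (by linarith))).sub (Xz_cont.pow 2)

lemma FX_poly {a V : ℝ} (ha : |a| ≤ 1 / 4) (t : ℝ) (ht : 0 ≤ t) :
    |FX a V t| ≤ ((Real.exp (-((a ^ 2 + 2 * a) * V)) + 1) * 24 ^ 3) * (1 + t) ^ 6 := by
  obtain ⟨h1, h2⟩ := abs_le.mp ha
  unfold FX
  refine (abs_sub _ _).trans ?_
  have e2 : ∀ t, Xz t ^ (2:ℝ) = Xz t ^ 2 := fun t => by rw [← Real.rpow_natCast]; norm_num
  have h3 := Xz_pow_le (β := 2) (by norm_num) (by norm_num) ht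
  rw [e2] at h3
  have h4 := Xz_pow_le (β := 2 + 2 * a) (by linarith) (by linarith) ht
  rw [abs_of_nonneg (mul_nonneg (Real.exp_pos _).le (Real.rpow_nonneg (Xz_nonneg t) _)), abs_of_nonneg (by positivity)]
  have h5 := mul_le_mul_of_nonneg_left h4 (Real.exp_pos (-((a ^ 2 + 2 * a) * V))).le
  linarith

theorem fx_T : ∃ δ η C D : ℝ, 0 < δ ∧ δ ≤ 1 / 160 ∧ 0 < η ∧ 0 < C ∧ 0 ≤ D ∧ ∀ᶠ T : ℝ in atTop, ∃ V : ℝ,
    |V - Real.log (Real.log T)| ≤ D ∧ ∀ a : ℝ, |a| ≤ δ →
      |∫ t in (0:ℝ)..T, FX a V t| ≤ C * |a| * (T * Real.log T) + T ^ (1 - η) := by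
  obtain ⟨c, hc, hrange⟩ := ranges
  obtain ⟨η1, hη1, hη11, hwin⟩ := win_one hc (Rs := 2) le_rfl
  set ηy := η1 / 1280 with hηy
  have hηy0 : 0 < ηy := by positivity
  obtain ⟨C1, hC1, hwin⟩ := hwin (1 / ηy)
  obtain ⟨δw, hδw, hδw1, hmw⟩ := win_mom (ε := 1) one_pos
  obtain ⟨δm, hδm, hδm1, hmT⟩ := mom_T (ε := 1) one_pos
  set s := min δw δm with hs
  have hs0 : 0 < s := lt_min hδw hδm
  have hs1 : s ≤ 1 / 40 := (min_le_left _ _).trans hδw1
  have hK := Kc_pos c
  set δ := min (s / 4) (1 / (4 * Kc c)) with hδ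
  have hδ0 : 0 < δ := lt_min (by positivity) (by positivity)
  have hδs : δ ≤ s / 4 := min_le_left _ _
  have hδK : δ * Kc c ≤ 1 / 4 := by
    have : δ ≤ 1 / (4 * Kc c) := min_le_right _ _
    rw [le_div_iff₀ (by positivity)] at this
    linarith
  set D := c + |Real.log ηy| with hD
  have hD0 : 0 ≤ D := by positivity
  set Cq := (2 * (1 + 2 / s) + 3) * (1 + Real.exp D) with hCq
  have hCq0 : 0 < Cq := by positivity
  refine ⟨δ, 3 / 4 * η1, C1 + 21 * Cq, D, hδ0, by linarith, by positivity, by positivity, hD0, ?_⟩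
  have ht : Tendsto (fun T : ℝ => T ^ ((3:ℝ) / 4)) atTop atTop := tendsto_rpow_atTop (by norm_num)
  obtain ⟨T1, hT1⟩ := eventually_atTop.1 hwin
  obtain ⟨T2, hT2⟩ := eventually_atTop.1 hmw
  have hyT : ∀ᶠ T : ℝ in atTop, 144 ≤ Real.exp (ηy * Real.log T) :=
    (Real.tendsto_exp_atTop.comp (Real.tendsto_log_atTop.const_mul_atTop hηy0)).eventually_ge_atTop 144
  have hsm : ∀ᶠ T : ℝ in atTop, Real.log T ^ 2 ≤ T ^ (1 / 4 : ℝ) := by
    have h1 := (isLittleO_log_rpow_rpow_atTop (2:ℝ) (show (0:ℝ) < 1 / 4 by norm_num)).def (zero_lt_one)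
    filter_upwards [h1, eventually_gt_atTop (1:ℝ)] with T h1 h2
    have h3 : 0 < Real.log T := Real.log_pos h2
    rw [Real.norm_eq_abs, Real.norm_eq_abs, abs_of_nonneg (by positivity), abs_of_nonneg (by positivity), one_mul] at h1
    calc Real.log T ^ 2 = Real.log T ^ (2:ℝ) := by norm_cast
      _ ≤ _ := h1
  have hlL : ∀ᶠ T : ℝ in atTop, Real.log (Real.log T) + D ≤ Real.log T ^ (1 / 4 : ℝ) := by
    have h1 : ∀ᶠ L : ℝ in atTop, Real.log L + D ≤ L ^ (1 / 4 : ℝ) := by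
      have h2 := (isLittleO_log_rpow_atTop (r := 1 / 4) (by norm_num)).bound (c := 1 / 2) (by norm_num)
      have h3 : ∀ᶠ L : ℝ in atTop, 2 * D ≤ L ^ (1 / 4 : ℝ) :=
        (tendsto_rpow_atTop (by norm_num)).eventually_ge_atTop _
      filter_upwards [h2, h3, eventually_ge_atTop (1:ℝ)] with L hL h4 hL1
      rw [Real.norm_of_nonneg (Real.log_nonneg hL1), Real.norm_of_nonneg (by positivity)] at hL
      linarith
    exact Real.tendsto_log_atTop.eventually h1
  filter_upwards [ht.eventually_ge_atTop (max 1 (max T1 T2)), ht.eventually hmT, hyT, hsm, hlL,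
    eventually_ge_atTop (1:ℝ), Real.tendsto_log_atTop.eventually_ge_atTop 2] with T hTT hmT hyT hsm hlL hT1' hL2
  have hTp : 0 < T := by linarith
  set L := Real.log T with hL
  have hL0 : 0 < L := by linarith
  have hL1 : 1 ≤ L := by linarith
  set A := T ^ ((3:ℝ) / 4) with hA
  have hA1 : 1 ≤ A := (le_max_left _ _).trans hTT
  have hA0 : 0 < A := by linarith
  have hAT : A ≤ T := by
    calc A ≤ T ^ (1:ℝ) := Real.rpow_le_rpow_of_exponent_le hT1' (by norm_num)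
      _ = T := Real.rpow_one T
  have hlA : Real.log A = 3 / 4 * L := Real.log_rpow hTp _
  have hAL : A * L ^ 2 ≤ T := by
    calc A * L ^ 2 ≤ A * T ^ (1 / 4 : ℝ) := by gcongr
      _ = T := by rw [hA, ← Real.rpow_add hTp]; norm_num
  obtain ⟨hk1, hkL, hR⟩ := kT_props hT1' hL2
  set k := kT T with hk
  have hk0 : (0:ℝ) < k := by exact_mod_cast hk1
  set y := Real.exp (ηy * L) with hyd
  have hly : Real.log y = ηy * L := Real.log_exp _
  obtain ⟨J, hRg, _, hend, hVV⟩ := hrange y hyT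
  have hBL : BL c y J := ⟨hc, hyT, hRg, hend, hVV⟩
  set V := ∑ i ∈ range J, vI (II y i) with hV
  have hVL : |V - Real.log L| ≤ D := by
    have e1 : Real.log (Real.log y) = Real.log ηy + Real.log L := by
      rw [hly, Real.log_mul hηy0.ne' hL0.ne']
    rw [e1] at hVV
    have e2 : V - Real.log L = (V - (Real.log ηy + Real.log L)) + Real.log ηy := by ring
    rw [e2]
    exact (abs_add_le _ _).trans (add_le_add hVV le_rfl)
  have hV0 : 0 ≤ V := sum_nonneg fun _ _ => vI_nonneg _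
  have hV1 : V ≤ Real.log L + D := by have := (abs_le.mp hVL).2; linarith
  refine ⟨V, hVL, fun a ha => ?_⟩
  have ha0 := abs_nonneg a
  have has : |a| ≤ s / 4 := ha.trans hδs
  have haK : |a| * Kc c ≤ 1 / 4 := (mul_le_mul_of_nonneg_right ha hK.le).trans hδK
  -- windows
  have hxl : ∀ x ∈ Set.Icc A T, 3 / 4 * L ≤ Real.log x ∧ Real.log x ≤ L ∧ 0 < x := by
    intro x hx
    have hx0 : 0 < x := hA0.trans_le hx.1
    refine ⟨?_, Real.log_le_log hx0 hx.2, hx0⟩
    rw [← hlA]; exact Real.log_le_log hA0 hx.1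
  have hw : ∀ x ∈ Set.Icc A T, |∫ t in Set.Ioi (0:ℝ), om k (k / x) t * FX a V t| ≤
      C1 * |a| * L + T ^ (-(3 / 4 * η1)) := by
    intro x hx
    obtain ⟨h1, h2, hx0⟩ := hxl x hx
    have h3 := hT1 x ((((le_max_left _ _).trans (le_max_right _ _)).trans hTT).trans hx.1) k (hR x hx) y a J hBL
      (by
        rw [hly, hηy]
        push_cast
        have := mul_le_mul_of_nonneg_left h1 hη1.le
        nlinarith)
      (by rw [hly]; field_simp; exact h2) (by linarith) haK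
    refine h3.trans ?_
    have h4 : x ^ (-η1) ≤ T ^ (-(3 / 4 * η1)) := by
      have h5 : T ^ (-(3 / 4 * η1)) = A ^ (-η1) := by
        rw [hA, ← Real.rpow_mul hTp.le]; congr 1; ring
      rw [h5]
      exact Real.rpow_le_rpow_of_nonpos hA0 hx.1 (by linarith)
    have h5 : C1 * |a| * Real.log x ≤ C1 * |a| * L := by gcongr
    linarith
  -- the size
  have hmq : (2 + s) ^ 2 / 4 ≤ 5 / 4 := by nlinarith
  have hpt : ∀ t, |FX a V t| ≤ |a| * (Cq * L ^ (1 / 2 : ℝ)) * (1 + Xz t ^ (2 + s)) := by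
    intro t
    refine (FX_le hs0 hs1 hL1 hD0 hV0 hV1 (hV1.trans hlL) has (t := t)).trans (le_of_eq ?_)
    rw [hCq]; ring
  have hs2 : |(2 + s) - 2| ≤ δw ∧ |(2 + s) - 2| ≤ δm := by
    rw [add_sub_cancel_left, abs_of_pos hs0]
    exact ⟨min_le_left _ _, min_le_right _ _⟩
  have hwq : ∀ x ∈ Set.Icc A T, ∫ t in Set.Ioi (0:ℝ), om k (k / x) t * |FX a V t| ≤
      |a| * (3 * Cq * L ^ (7 / 4 : ℝ)) := by
    intro x hx
    obtain ⟨h1, h2, hx0⟩ := hxl x hx
    have hδx : 0 < (k:ℝ) / x := by positivity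
    have h3 := hT2 x ((((le_max_right _ _).trans (le_max_right _ _)).trans hTT).trans hx.1) k (hR x hx) (2 + s) hs2.1
    have h4 := (abs_le.mp h3).2
    have i1 : IntegrableOn (fun t => om k (k / x) t * Xz t ^ (2 + s)) (Set.Ioi 0) := iX hδx (by linarith) (by linarith)
    have i0 : IntegrableOn (fun t => om k (k / x) t) (Set.Ioi 0) := by
      have := om_poly_int (k := k) hδx (F := fun _ => (1:ℝ)) continuous_const (C := 1) 0 (fun t _ => by simp)
      simpa using this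
    have i2 : IntegrableOn (fun t => om k (k / x) t * |FX a V t|) (Set.Ioi 0) :=
      om_poly_int hδx (FX_cont (by linarith)).abs (C := ((Real.exp (-((a ^ 2 + 2 * a) * V)) + 1) * 24 ^ 3)) 6
        (fun t ht => by rw [abs_abs]; exact FX_poly (by linarith) t ht)
    have h5 : ∫ t in Set.Ioi (0:ℝ), om k (k / x) t * |FX a V t| ≤ ∫ t in Set.Ioi (0:ℝ),
        |a| * (Cq * L ^ (1 / 2 : ℝ)) * (om k (k / x) t + om k (k / x) t * Xz t ^ (2 + s)) := by
      refine setIntegral_mono_on i2 ((i0.add i1).const_mul _) measurableSet_Ioi fun t ht => ?_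
      have h6 := mul_le_mul_of_nonneg_left (hpt t) (om_nn k hδx (le_of_lt ht))
      linarith
    rw [integral_const_mul, integral_add i0 i1, om_one k hδx] at h5
    have h6 : Real.log x ^ ((2 + s) ^ 2 / 4) ≤ L ^ (5 / 4 : ℝ) := by
      calc Real.log x ^ ((2 + s) ^ 2 / 4) ≤ L ^ ((2 + s) ^ 2 / 4) :=
            Real.rpow_le_rpow (by linarith) h2 (by positivity)
        _ ≤ _ := Real.rpow_le_rpow_of_exponent_le hL1 hmq
    have h7 : 1 ≤ L ^ (5 / 4 : ℝ) := Real.one_le_rpow hL1 (by norm_num)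
    have h8 : L ^ (1 / 2 : ℝ) * L ^ (5 / 4 : ℝ) = L ^ (7 / 4 : ℝ) := by
      rw [← Real.rpow_add hL0]; norm_num
    calc _ ≤ |a| * (Cq * L ^ (1 / 2 : ℝ)) * (1 + 2 * Real.log x ^ ((2 + s) ^ 2 / 4)) := by
          refine h5.trans ?_
          gcongr
          linarith
      _ ≤ |a| * (Cq * L ^ (1 / 2 : ℝ)) * (3 * L ^ (5 / 4 : ℝ)) := by
          gcongr
          linarith
      _ = |a| * (3 * Cq * (L ^ (1 / 2 : ℝ) * L ^ (5 / 4 : ℝ))) := by ring
      _ = _ := by rw [h8]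
  have hseg : ∫ t in (0:ℝ)..A, |FX a V t| ≤ 3 * Cq * |a| * T := by
    have h1 := (abs_le.mp (hmT (2 + s) hs2.2)).2
    have h2 : ∫ t in (0:ℝ)..A, |FX a V t| ≤ ∫ t in (0:ℝ)..A, |a| * (Cq * L ^ (1 / 2 : ℝ)) * (1 + Xz t ^ (2 + s)) := by
      refine intervalIntegral.integral_mono_on hA0.le ((FX_cont (by linarith)).abs.intervalIntegrable _ _)
        ((continuous_const.mul (continuous_const.add (Xz_pow_cont (by linarith)))).intervalIntegrable _ _)
        fun t _ => hpt t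
    rw [intervalIntegral.integral_const_mul, intervalIntegral.integral_add (intervalIntegrable_const)
      ((Xz_pow_cont (by linarith)).intervalIntegrable _ _), intervalIntegral.integral_const, smul_eq_mul, mul_one,
      sub_zero] at h2
    have h6 : Real.log A ^ ((2 + s) ^ 2 / 4) ≤ L ^ (5 / 4 : ℝ) := by
      calc Real.log A ^ ((2 + s) ^ 2 / 4) ≤ L ^ ((2 + s) ^ 2 / 4) :=
            Real.rpow_le_rpow (by rw [hlA]; positivity) (by rw [hlA]; linarith) (by positivity)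
        _ ≤ _ := Real.rpow_le_rpow_of_exponent_le hL1 hmq
    have h7 : 1 ≤ L ^ (5 / 4 : ℝ) := Real.one_le_rpow hL1 (by norm_num)
    have h8 : L ^ (1 / 2 : ℝ) * L ^ (5 / 4 : ℝ) ≤ L ^ 2 := by
      rw [← Real.rpow_add hL0, ← Real.rpow_natCast L 2]
      exact Real.rpow_le_rpow_of_exponent_le hL1 (by norm_num)
    calc _ ≤ |a| * (Cq * L ^ (1 / 2 : ℝ)) * (A + 2 * (A * Real.log A ^ ((2 + s) ^ 2 / 4))) :=
          h2.trans (mul_le_mul_of_nonneg_left (by linarith) (by positivity))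
      _ ≤ |a| * (Cq * L ^ (1 / 2 : ℝ)) * (A * L ^ (5 / 4 : ℝ) + 2 * (A * L ^ (5 / 4 : ℝ))) := by
          gcongr
          exact le_mul_of_one_le_right hA0.le h7
      _ = 3 * Cq * |a| * (A * (L ^ (1 / 2 : ℝ) * L ^ (5 / 4 : ℝ))) := by ring
      _ ≤ 3 * Cq * |a| * (A * L ^ 2) := by gcongr
      _ ≤ _ := by gcongr
  obtain ⟨i1, h1⟩ := sharp (F := FX a V) (FX_cont (by linarith)) (FX_poly (by linarith)) hk1 hA0 hAT
  have hmain : |∫ x in A..T, ∫ t in Set.Ioi (0:ℝ), om k (k / x) t * FX a V t| ≤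
      (C1 * |a| * L + T ^ (-(3 / 4 * η1))) * T := by
    have := intervalIntegral.norm_integral_le_of_norm_le_const (a := A) (b := T)
      (f := fun x => ∫ t in Set.Ioi (0:ℝ), om k (k / x) t * FX a V t) (C := C1 * |a| * L + T ^ (-(3 / 4 * η1)))
      (fun x hx => by
        rw [Set.uIoc_of_le hAT] at hx
        rw [Real.norm_eq_abs]
        exact hw x ⟨hx.1.le, hx.2⟩)
    rw [Real.norm_eq_abs] at this
    refine this.trans ?_
    rw [abs_of_nonneg (show 0 ≤ T - A by linarith)]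
    have h0 : 0 ≤ C1 * |a| * L + T ^ (-(3 / 4 * η1)) := by positivity
    nlinarith
  have hsq : ∀ b : ℝ, 0 ≤ b → b / Real.sqrt k ≤ b / L := fun b hb =>
    div_le_div_of_nonneg_left hb (by linarith) hkL
  have hedge : ∀ b ∈ Set.Icc A T, 3 * (b / Real.sqrt k) * (∫ t in Set.Ioi (0:ℝ), om k (k / b) t * |FX a V t|) ≤
      9 * Cq * |a| * (T * L) := by
    intro b hb
    obtain ⟨_, _, hb0⟩ := hxl b hb
    have h2 := hwq b hb
    have h3 := hsq b hb0.le
    have h4 : 0 ≤ ∫ t in Set.Ioi (0:ℝ), om k (k / b) t * |FX a V t| :=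
      setIntegral_nonneg measurableSet_Ioi fun t ht => mul_nonneg (om_nn k (by positivity) (le_of_lt ht)) (abs_nonneg _)
    have h5 : L ^ (7 / 4 : ℝ) ≤ L * L := by
      have : L * L = L ^ (2:ℝ) := by rw [← sq, ← Real.rpow_natCast]; norm_num
      rw [this]
      exact Real.rpow_le_rpow_of_exponent_le hL1 (by norm_num)
    calc _ ≤ 3 * (b / L) * (|a| * (3 * Cq * L ^ (7 / 4 : ℝ))) := by gcongr
      _ ≤ 3 * (T / L) * (|a| * (3 * Cq * (L * L))) := by
          have := hb.2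
          gcongr
      _ = _ := by field_simp; ring
  have e1 := hedge A ⟨le_rfl, hAT⟩
  have e2 := hedge T ⟨hAT, le_rfl⟩
  have hTL : T ≤ T * L := le_mul_of_one_le_right hTp.le hL1
  have e3 : 3 * Cq * |a| * T ≤ 3 * Cq * |a| * (T * L) := by gcongr
  have e4 : T ^ (1 - 3 / 4 * η1) = T ^ (-(3 / 4 * η1)) * T := by
    rw [sub_eq_add_neg, Real.rpow_add hTp, Real.rpow_one, mul_comm]
  have h2 := abs_le.mp h1
  have h3 := abs_le.mp hmain
  rw [e4]
  have e5 : (C1 + 21 * Cq) * |a| * (T * L) + T ^ (-(3 / 4 * η1)) * T =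
      (C1 * |a| * L + T ^ (-(3 / 4 * η1))) * T + 21 * Cq * |a| * (T * L) := by ring
  rw [e5, abs_le]
  constructor <;> linarith

end Pool.Agent.H998_LP
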