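import Pool.Agent.H998_LP.Pt
import Pool.Agent.TH806.Gl

set_option autoImplicit false

/-! The averages of the multipliers with a linear error. -/

namespace Pool.Agent.H998_LP

open Finset MeasureTheory Real MonoidAlgebra
open Pool.Agent.W184.NZ
open Pool.Agent.TH806 (gl glf lam_gl law_exists' gl_mem gl_Bd gl_l1 GQ GQ_Bd GQ_l1 l0 one_sub_ge_exp)

lemma sq_sub {a : ℝ} (ha : |a| ≤ 1 / 16) (R : ℕ) (z : ℂ) :
    |‖NK R a z‖ ^ 2 - Real.exp (2 * a * z.re)| ≤ 2 * |a| * (Real.exp (-(R:ℝ)) * Real.exp (4 * ‖z‖)) := by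
  have h1 := nk_err ha R z
  have h2 := NK_norm_le R (by linarith : |a| ≤ 1) z
  have h3 : ‖Complex.exp (a * z)‖ ≤ Real.exp ‖z‖ := by
    rw [Complex.norm_exp]
    refine Real.exp_le_exp.mpr ?_
    have h4 := Complex.re_le_norm ((a:ℂ) * z)
    rw [norm_mul, Complex.norm_real, Real.norm_eq_abs] at h4
    nlinarith [norm_nonneg z]
  rw [← norm_exp_sq]
  have e : ‖NK R a z‖ ^ 2 - ‖Complex.exp (a * z)‖ ^ 2 =
      (‖NK R a z‖ - ‖Complex.exp (a * z)‖) * (‖NK R a z‖ + ‖Complex.exp (a * z)‖) := by ring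
  rw [e, abs_mul]
  have h5 := (abs_norm_sub_norm_le (NK R a z) (Complex.exp (a * z))).trans h1
  have h6 : |‖NK R a z‖ + ‖Complex.exp (a * z)‖| ≤ 2 * Real.exp ‖z‖ := by
    rw [abs_of_nonneg (by positivity)]; linarith
  have h7 : (1 / 16 : ℝ) ^ R ≤ Real.exp (-(R:ℝ)) := by
    have h4 : (1 / 16 : ℝ) ≤ Real.exp (-1) := by
      rw [Real.exp_neg, one_div]
      refine inv_anti₀ (Real.exp_pos _) ?_
      have := Real.exp_one_lt_d9
      linarith
    calc (1 / 16 : ℝ) ^ R ≤ Real.exp (-1) ^ R := pow_le_pow_left₀ (by norm_num) h4 R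
      _ = _ := by rw [← Real.exp_nat_mul]; congr 1; ring
  have h8 : Real.exp ‖z‖ * Real.exp ‖z‖ ≤ Real.exp (4 * ‖z‖) := by
    rw [← Real.exp_add]
    exact Real.exp_le_exp.mpr (by linarith [norm_nonneg z])
  calc _ ≤ (|a| * ((1 / 16) ^ R * Real.exp ‖z‖)) * (2 * Real.exp ‖z‖) := mul_le_mul h5 h6 (abs_nonneg _) (by positivity)
    _ = 2 * |a| * ((1 / 16) ^ R * (Real.exp ‖z‖ * Real.exp ‖z‖)) := by ring
    _ ≤ _ := by gcongr

/-- the constant -/
noncomputable def Kc (c : ℝ) : ℝ := CC c c * Real.exp c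

lemma Kc_pos (c : ℝ) : 0 < Kc c := mul_pos (CC_pos c c) (Real.exp_pos c)

section
variable {w : ℕ × ℕ → ℝ} {κ : ℝ} {I : Finset ℕ}

lemma loc2 (hw : GoodW w κ) {c : ℝ} (hc0 : 0 ≤ c) (hI : ∀ p ∈ I, p.Prime ∧ 144 ≤ p) (hv : vI I ≤ c) (hu : uI I ≤ c)
    (R : ℕ) {a : ℝ} (ha : |a| ≤ 1 / 16) (hac : |a| * Kc c ≤ 1 / 4) :
    Real.exp ((2 * κ * a + a ^ 2) * vI I - 4 * a ^ 2 * uI I - 4 * |a| * Kc c * Real.exp (-(R:ℝ))) ≤
      lam w (gl 0 R a I) ∧
    lam w (gl 0 R a I) ≤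
      Real.exp ((2 * κ * a + a ^ 2) * vI I + 12 * a ^ 2 * uI I + 2 * |a| * Kc c * Real.exp (-(R:ℝ))) := by
  obtain ⟨ν, h, hl⟩ := law_exists' hw I hI
  have := h.prob
  obtain ⟨B, hB⟩ := h.bdd
  have u0 := uI_nonneg I
  have v0 := vI_nonneg I
  have hk0 := hw.k0
  have hk1 := hw.k1
  have ha' : |a| ≤ 1 := by linarith
  have ha0 := abs_nonneg a
  obtain ⟨ha1, ha2⟩ := abs_le.mp ha
  have h4 := law_exp4 hw h
  have hlow := hl a (by linarith)
  have hc : ‖((2 * a : ℝ) : ℂ)‖ = 2 * |a| := by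
    rw [Complex.norm_real, Real.norm_eq_abs, abs_mul]; norm_num
  have h5 := h.expb ((2 * a : ℝ) : ℂ) (by rw [hc]; linarith)
  have e1 : ∀ z : ℂ, (((2 * a : ℝ) : ℂ) * z).re = 2 * a * z.re := fun z => Complex.re_ofReal_mul _ _
  simp_rw [e1] at h5
  rw [hc, Complex.ofReal_re] at h5
  have hup : ∫ z : ℂ, Real.exp (2 * a * z.re) ∂ν ≤ Real.exp ((2 * κ * a + a ^ 2) * vI I + 12 * a ^ 2 * uI I) := by
    refine h5.trans (Real.exp_le_exp.mpr ?_)
    have h7 : (2 * |a|) ^ 2 = 4 * a ^ 2 := by rw [mul_pow, sq_abs]; ring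
    have h8 : (2 * |a|) ^ 3 ≤ 8 * a ^ 2 := by
      have : (2 * |a|) ^ 3 = 8 * (|a| ^ 2 * |a|) := by ring
      rw [this, sq_abs]; nlinarith [sq_nonneg a]
    rw [h7]
    have h9 := mul_le_mul_of_nonneg_right (add_le_add_right h8 (4 * a ^ 2)) u0
    have e : (κ * (2 * a) + 4 * a ^ 2 / 4) * vI I = (2 * κ * a + a ^ 2) * vI I := by ring
    rw [e]
    linarith
  set x := Real.exp (-(R:ℝ)) with hx
  have hx0 : 0 < x := Real.exp_pos _
  have hx1 : x ≤ 1 := Real.exp_le_one_iff.mpr (by simp)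
  have i1 : Integrable (fun z : ℂ => Real.exp (2 * a * z.re)) ν := integrable_of_bdd hB (by fun_prop)
  have i2 : Integrable (fun z : ℂ => Real.exp (4 * ‖z‖)) ν := integrable_of_bdd hB (by fun_prop)
  have i3 : Integrable (fun z : ℂ => glf 0 R a z) ν := integrable_of_bdd hB (by unfold glf NK; fun_prop)
  rw [lam_gl h]
  have eg : ∀ z : ℂ, glf 0 R a z = ‖NK R a z‖ ^ 2 := fun z => by unfold glf; simp
  set δ := 2 * |a| * (x * CC c c) with hδ
  have hδ0 : 0 ≤ δ := by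
    have := CC_pos c c
    positivity
  have hdiff : |(∫ z, glf 0 R a z ∂ν) - ∫ z : ℂ, Real.exp (2 * a * z.re) ∂ν| ≤ δ := by
    rw [← integral_sub i3 i1]
    refine (abs_integral_le_integral_abs).trans ?_
    have h6 : ∫ z, |glf 0 R a z - Real.exp (2 * a * z.re)| ∂ν ≤ ∫ z : ℂ, 2 * |a| * x * Real.exp (4 * ‖z‖) ∂ν := by
      refine integral_mono (i3.sub i1).abs (i2.const_mul _) fun z => ?_
      simp only
      rw [eg]
      refine (sq_sub ha R z).trans (le_of_eq ?_)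
      rw [hx]; ring
    refine h6.trans ?_
    rw [integral_const_mul, hδ]
    have hD : CC (vI I) (uI I) ≤ CC c c := CC_mono hv hu
    calc 2 * |a| * x * ∫ z : ℂ, Real.exp (4 * ‖z‖) ∂ν ≤ 2 * |a| * x * CC c c := by
          have := h4.trans hD
          gcongr
      _ = _ := by ring
  obtain ⟨hd1, hd2⟩ := abs_le.mp hdiff
  set Em := (2 * κ * a + a ^ 2) * vI I - 4 * a ^ 2 * uI I with hEm
  set Ep := (2 * κ * a + a ^ 2) * vI I + 12 * a ^ 2 * uI I with hEp
  have haa : a ^ 2 ≤ 1 / 256 := by rw [← sq_abs]; nlinarith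
  have hEmc : -c ≤ Em := by
    have e2 : -(1 / 2) ≤ 2 * κ * a + a ^ 2 := by nlinarith [sq_nonneg a]
    have e3 : 4 * a ^ 2 * uI I ≤ 1 / 2 * c := by nlinarith [sq_nonneg a]
    nlinarith
  have hEmp : Em ≤ Ep := by
    have : 0 ≤ a ^ 2 * uI I := by positivity
    linarith
  have hδK : δ * Real.exp c = 2 * |a| * Kc c * x := by rw [hδ]; unfold Kc; ring
  have hK0 := Kc_pos c
  have hq : δ * Real.exp c ≤ 1 / 2 := by
    rw [hδK]
    have : 0 ≤ |a| * Kc c := by positivity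
    nlinarith
  have hcmp : ∀ E : ℝ, -c ≤ E → δ ≤ Real.exp E * (δ * Real.exp c) := by
    intro E hE
    have : 1 ≤ Real.exp E * Real.exp c := by rw [← Real.exp_add]; exact Real.one_le_exp (by linarith)
    calc δ = δ * 1 := (mul_one _).symm
      _ ≤ δ * (Real.exp E * Real.exp c) := mul_le_mul_of_nonneg_left this hδ0
      _ = _ := by ring
  constructor
  · have h6 := hcmp Em hEmc
    have h7 := one_sub_ge_exp (x := δ * Real.exp c) (by positivity) hq
    have e2 : Em - 4 * |a| * Kc c * x = Em + -(2 * (δ * Real.exp c)) := by rw [hδK]; ring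
    rw [e2, Real.exp_add]
    calc Real.exp Em * Real.exp (-(2 * (δ * Real.exp c))) ≤ Real.exp Em * (1 - δ * Real.exp c) :=
          mul_le_mul_of_nonneg_left h7 (Real.exp_pos _).le
      _ ≤ _ := by linarith
  · have h6 := hcmp Ep (hEmc.trans hEmp)
    have h7 := Real.add_one_le_exp (δ * Real.exp c)
    have e2 : Ep + 2 * |a| * Kc c * x = Ep + δ * Real.exp c := by rw [hδK]
    rw [e2, Real.exp_add]
    calc _ ≤ Real.exp Ep + δ := by linarith
      _ ≤ Real.exp Ep * (δ * Real.exp c + 1) := by linarith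
      _ ≤ _ := mul_le_mul_of_nonneg_left h7 (Real.exp_pos _).le

end

section
variable {I : Finset ℕ} {b : ℝ}

/-- the logarithmic functional of the local factor -/
lemma gl_wl' (hb : 1 ≤ b) (hI : ∀ p ∈ I, p.Prime ∧ (p:ℝ) ≤ b) (R : ℕ) (a : ℝ) :
    |lam wl (gl 0 R a I)| ≤ 4 * R * Real.log b * (lam w1 (gl 0 R |a| I) - 1) := by
  have hlog : ∀ f : DA, Nn f → Bd (b ^ (2 * R)) f → |lam wl f| ≤ 4 * R * Real.log b * lam w1 f := by
    intro f h1 h2
    have := wl_bound h1 h2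
    rw [Real.log_pow] at this
    refine this.trans (le_of_eq ?_)
    push_cast; ring
  have hB : ∀ k l : ℕ, k ≤ R → l ≤ R → Bd (b ^ (2 * R)) (xI I ^ k * yI I ^ l) := by
    intro k l hk hl
    refine (((xI_Bd hI).pow k).mul ((yI_Bd hI).pow l)).mono ?_
    rw [← pow_add]
    exact pow_le_pow_right₀ hb (by omega)
  have hN : ∀ k l : ℕ, Nn (xI I ^ k * yI I ^ l) := fun k l => (xI_Nn.pow k).mul (yI_Nn.pow l)
  have e1 : ∀ a : ℝ, gl 0 R a I = ∑ k ∈ range (R + 1), ∑ l ∈ range (R + 1),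
      (a ^ k / (k.factorial : ℝ) * (a ^ l / (l.factorial : ℝ))) • (xI I ^ k * yI I ^ l) := by
    intro a
    unfold gl NK
    rw [sum_mul_sum, zero_mul, zero_smul, add_zero]
    refine sum_congr rfl fun k _ => sum_congr rfl fun l _ => ?_
    rw [smul_mul_smul_comm]
  set d : ℕ → ℝ := fun k => if k = 0 then 1 else 0 with hd
  have hterm : ∀ k l : ℕ, k ≤ R → l ≤ R → |lam wl (xI I ^ k * yI I ^ l)| ≤
      4 * R * Real.log b * (lam w1 (xI I ^ k * yI I ^ l) - d k * d l) := by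
    intro k l hk hl
    by_cases h : k = 0 ∧ l = 0
    · obtain ⟨rfl, rfl⟩ := h
      have e3 : lam wl (xI I ^ 0 * yI I ^ 0) = 0 := by
        rw [pow_zero, pow_zero, one_mul, MonoidAlgebra.one_def, lam_single]
        unfold wl
        simp
      have e4 : lam w1 (xI I ^ 0 * yI I ^ 0) = 1 := by
        rw [pow_zero, pow_zero, one_mul, lam_one goodW1]
      rw [e3, e4, hd]
      simp
    · have e5 : d k * d l = 0 := by
        rw [hd]
        simp only
        by_cases hk0 : k = 0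
        · rw [if_neg (fun hl0 => h ⟨hk0, hl0⟩), mul_zero]
        · rw [if_neg hk0, zero_mul]
      rw [e5, sub_zero]
      exact hlog _ (hN k l) (hB k l hk hl)
  have hd1 : ∀ a : ℝ, ∑ k ∈ range (R + 1), a ^ k / (k.factorial : ℝ) * d k = 1 := by
    intro a
    rw [sum_eq_single_of_mem 0 (by simp)]
    · rw [hd]; simp
    · intro k _ hk
      rw [hd]; simp only
      rw [if_neg hk, mul_zero]
  rw [e1, e1, map_sum, map_sum]
  have key : ∑ k ∈ range (R + 1), ∑ l ∈ range (R + 1),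
      (|a| ^ k / (k.factorial : ℝ) * (|a| ^ l / (l.factorial : ℝ))) *
        (4 * R * Real.log b * (lam w1 (xI I ^ k * yI I ^ l) - d k * d l)) =
      4 * R * Real.log b * ((∑ k ∈ range (R + 1), lam w1 (∑ l ∈ range (R + 1),
        (|a| ^ k / (k.factorial : ℝ) * (|a| ^ l / (l.factorial : ℝ))) • (xI I ^ k * yI I ^ l))) - 1) := by
    have e6 : (1:ℝ) = ∑ k ∈ range (R + 1), ∑ l ∈ range (R + 1),
        (|a| ^ k / (k.factorial : ℝ) * (|a| ^ l / (l.factorial : ℝ))) * (d k * d l) := by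
      have := sum_mul_sum (range (R + 1)) (range (R + 1)) (fun k => |a| ^ k / (k.factorial : ℝ) * d k)
        (fun k => |a| ^ k / (k.factorial : ℝ) * d k)
      rw [hd1, one_mul] at this
      rw [this]
      refine sum_congr rfl fun k _ => sum_congr rfl fun l _ => ?_
      ring
    conv_rhs => rw [e6]
    rw [← sum_sub_distrib, mul_sum]
    refine sum_congr rfl fun k _ => ?_
    rw [map_sum, ← sum_sub_distrib, mul_sum]
    refine sum_congr rfl fun l _ => ?_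
    rw [map_smul, smul_eq_mul]
    ring
  rw [← key]
  refine (abs_sum_le_sum_abs _ _).trans ?_
  refine sum_le_sum fun k hk => ?_
  rw [map_sum]
  refine (abs_sum_le_sum_abs _ _).trans ?_
  refine sum_le_sum fun l hl => ?_
  rw [mem_range] at hk hl
  rw [map_smul, smul_eq_mul, abs_mul]
  have h1 : |a ^ k / (k.factorial : ℝ) * (a ^ l / (l.factorial : ℝ))| =
      |a| ^ k / (k.factorial : ℝ) * (|a| ^ l / (l.factorial : ℝ)) := by
    rw [abs_mul, abs_div, abs_div, abs_pow, abs_pow, Nat.abs_cast, Nat.abs_cast]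
  rw [h1]
  exact mul_le_mul_of_nonneg_left (hterm k l (by omega) (by omega)) (by positivity)

end

/-- the constant of the two-sided bound -/
noncomputable def B1 (c : ℝ) : ℝ := c + 8 * Kc c

lemma B1_pos {c : ℝ} (hc : 0 ≤ c) : 0 < B1 c := by
  have := Kc_pos c
  unfold B1; positivity

/-- the constant of the logarithmic bound -/
noncomputable def B2 (c : ℝ) : ℝ := (4 * c + 2 * Kc c) * Real.exp (4 * c + 2 * Kc c) * Real.exp (c + 1)

lemma B2_pos {c : ℝ} (hc : 0 ≤ c) : 0 < B2 c := by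
  have := Kc_pos c
  unfold B2; positivity

section
variable {c : ℝ} {J Rs : ℕ} {I : ℕ → Finset ℕ} {b : ℕ → ℝ} {R : ℕ → ℕ}

theorem GQ2 {w : ℕ × ℕ → ℝ} {κ : ℝ} (hw : GoodW w κ) (hc : 0 ≤ c) (h : Rg c J I b)
    (hR : ∀ i, Rs + i ≤ R i) {a : ℝ} (ha : |a| ≤ 1 / 16) (hac : |a| * Kc c ≤ 1 / 4) :
    Real.exp ((2 * κ * a + a ^ 2) * (∑ i ∈ range J, vI (I i)) - B1 c * |a|) ≤ lam w (GQ l0 J a R I) ∧
    lam w (GQ l0 J a R I) ≤ Real.exp ((2 * κ * a + a ^ 2) * (∑ i ∈ range J, vI (I i)) + B1 c * |a|) := by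
  have hf : ∀ i, gl (l0 i) (R i) a (I i) ∈ SA (MI (I i)) := fun i =>
    gl_mem (fun p hp => (h.pr i p hp).1) _ _ _
  have hloc : ∀ i ∈ range J, _ := fun i hi =>
    loc2 hw hc (fun p hp => ⟨(h.pr i p hp).1, (h.pr i p hp).2.1⟩) (h.v i (mem_range.mp hi)) (h.u (mem_range.mp hi))
      (R i) ha hac
  have haa : a ^ 2 ≤ 1 / 16 * |a| := by rw [← sq_abs]; nlinarith [abs_nonneg a]
  have hK := Kc_pos c
  have ha0 := abs_nonneg a
  have hse := sum_exp_le J Rs hR
  have hse1 : Real.exp (-(Rs:ℝ)) ≤ 1 := Real.exp_le_one_iff.mpr (by simp)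
  have hU := h.U
  have hU0 : 0 ≤ ∑ i ∈ range J, uI (I i) := sum_nonneg fun i _ => uI_nonneg _
  have haU : a ^ 2 * (∑ i ∈ range J, uI (I i)) ≤ 1 / 16 * |a| * c := by gcongr
  have hKs : |a| * Kc c * (∑ i ∈ range J, Real.exp (-(R i : ℝ))) ≤ |a| * Kc c * 2 := by
    gcongr; linarith
  unfold GQ
  rw [lam_prod hw J h.dj hf]
  unfold l0
  constructor
  · refine le_trans ?_ (prod_le_prod (fun i _ => (Real.exp_pos _).le) fun i hi => (hloc i hi).1)
    rw [← Real.exp_sum, sum_sub_distrib, sum_sub_distrib, ← mul_sum, ← mul_sum, ← mul_sum]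
    refine Real.exp_le_exp.mpr ?_
    unfold B1
    nlinarith
  · refine (prod_le_prod (fun i hi => le_trans (Real.exp_pos _).le (hloc i hi).1) fun i hi => (hloc i hi).2).trans ?_
    rw [← Real.exp_sum, sum_add_distrib, sum_add_distrib, ← mul_sum, ← mul_sum, ← mul_sum]
    refine Real.exp_le_exp.mpr ?_
    unfold B1
    nlinarith

theorem GQ_log2 (hc : 0 ≤ c) (h : Rg c J I b) {a : ℝ} (ha : |a| ≤ 1 / 16) (hac : |a| * Kc c ≤ 1 / 4) :
    |lam wl (GQ l0 J a R I)| ≤ (∑ i ∈ range J, 4 * (R i : ℝ) * Real.log (b i) * (B2 c * |a|)) *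
      lam w1 (GQ l0 J a R I) := by
  have hf : ∀ i, gl (l0 i) (R i) a (I i) ∈ SA (MI (I i)) := fun i =>
    gl_mem (fun p hp => (h.pr i p hp).1) _ _ _
  have hloc : ∀ i < J, _ := fun i hi =>
    loc2 goodW1 hc (fun p hp => ⟨(h.pr i p hp).1, (h.pr i p hp).2.1⟩) (h.v i hi) (h.u hi)
      (R i) ha hac
  unfold GQ
  rw [lam_prod goodW1 J h.dj hf]
  refine laml_prod J h.dj hf (C := fun i => 4 * (R i : ℝ) * Real.log (b i) * (B2 c * |a|))
    (fun i hi' => le_trans (Real.exp_pos _).le (hloc i hi').1) fun i hi' => ?_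
  have hb : 1 ≤ b i := by have := h.b10 i hi'; linarith
  have h2 := gl_wl' hb (fun p hp => ⟨(h.pr i p hp).1, (h.pr i p hp).2.2⟩) (R i) a
  have ha' : |(|a|)| ≤ 1 / 16 := by rwa [abs_abs]
  have h3 := (loc2 goodW1 hc (fun p hp => ⟨(h.pr i p hp).1, (h.pr i p hp).2.1⟩) (h.v i hi') (h.u hi')
    (R i) ha' (a := |a|) (by rwa [abs_abs])).2
  have hlow := (hloc i hi').1
  have hl : 0 ≤ Real.log (b i) := Real.log_nonneg hb
  have hK := Kc_pos c
  have ha0 := abs_nonneg a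
  have haa : a ^ 2 ≤ 1 / 16 * |a| := by rw [← sq_abs]; nlinarith
  have haa0 := sq_nonneg a
  have v0 := vI_nonneg (I i)
  have u0 := uI_nonneg (I i)
  have v1 := h.v i hi'
  have u1 := h.u hi'
  have x1 : Real.exp (-(R i:ℝ)) ≤ 1 := Real.exp_le_one_iff.mpr (by simp)
  have x0 : 0 < Real.exp (-(R i:ℝ)) := Real.exp_pos _
  set D := 4 * c + 2 * Kc c with hD
  have hD0 : 0 < D := by positivity
  have hup : lam w1 (gl 0 (R i) |a| (I i)) - 1 ≤ |a| * (D * Real.exp D) := by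
    have h4 : lam w1 (gl 0 (R i) |a| (I i)) ≤ Real.exp (|a| * D) := by
      refine h3.trans (Real.exp_le_exp.mpr ?_)
      rw [sq_abs, abs_abs]
      have e1 : (2 * 1 * |a| + a ^ 2) * vI (I i) ≤ (3 * |a|) * c := by
        have : 2 * 1 * |a| + a ^ 2 ≤ 3 * |a| := by linarith
        exact mul_le_mul this v1 v0 (by positivity)
      have e2 : 12 * a ^ 2 * uI (I i) ≤ |a| * c := by
        have : 12 * a ^ 2 ≤ |a| := by linarith
        exact mul_le_mul this u1 u0 ha0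
      have e3 : 2 * |a| * Kc c * Real.exp (-(R i:ℝ)) ≤ 2 * |a| * Kc c * 1 := by gcongr
      rw [hD]
      linarith
    have h5 : Real.exp (|a| * D) - 1 ≤ |a| * D * Real.exp (|a| * D) := by
      have h6 := Real.add_one_le_exp (-(|a| * D))
      have h7 : Real.exp (|a| * D) * Real.exp (-(|a| * D)) = 1 := by rw [← Real.exp_add]; simp
      have h8 : 0 < Real.exp (|a| * D) := Real.exp_pos _
      nlinarith
    have h6 : Real.exp (|a| * D) ≤ Real.exp D := Real.exp_le_exp.mpr (by nlinarith)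
    calc _ ≤ |a| * D * Real.exp (|a| * D) := by linarith
      _ ≤ |a| * D * Real.exp D := by gcongr
      _ = _ := by ring
  have hlow2 : Real.exp (-(c + 1)) ≤ lam w1 (gl 0 (R i) a (I i)) := by
    refine le_trans (Real.exp_le_exp.mpr ?_) hlow
    have e0 : -|a| ≤ a := neg_abs_le a
    have e1 : -(1 / 2 * c) ≤ (2 * 1 * a + a ^ 2) * vI (I i) := by nlinarith
    have e2 : 4 * a ^ 2 * uI (I i) ≤ 1 / 2 * c := by nlinarith
    have e3 : 4 * |a| * Kc c * Real.exp (-(R i:ℝ)) ≤ 1 := by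
      calc 4 * |a| * Kc c * Real.exp (-(R i:ℝ)) ≤ 4 * |a| * Kc c * 1 := by gcongr
        _ ≤ 1 := by linarith
    linarith
  have hfin : |a| * (D * Real.exp D) ≤ (B2 c * |a|) * lam w1 (gl 0 (R i) a (I i)) := by
    have e1 : Real.exp (c + 1) * Real.exp (-(c + 1)) = 1 := by rw [← Real.exp_add]; simp
    calc |a| * (D * Real.exp D) = (B2 c * |a|) * Real.exp (-(c + 1)) := by
          unfold B2
          rw [← hD]
          calc |a| * (D * Real.exp D) = |a| * (D * Real.exp D) * (Real.exp (c + 1) * Real.exp (-(c + 1))) := by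
                rw [e1, mul_one]
            _ = _ := by ring
      _ ≤ _ := mul_le_mul_of_nonneg_left hlow2 (mul_nonneg (B2_pos hc).le ha0)
  unfold l0
  refine h2.trans ?_
  calc 4 * (R i:ℝ) * Real.log (b i) * (lam w1 (gl 0 (R i) |a| (I i)) - 1) ≤
      4 * (R i:ℝ) * Real.log (b i) * ((B2 c * |a|) * lam w1 (gl 0 (R i) a (I i))) :=
        mul_le_mul_of_nonneg_left (hup.trans hfin) (by positivity)
    _ = _ := by ring

lemma GQ_log2' {y : ℝ} (hc : 0 ≤ c) (hy : 1 ≤ y) (h : Rg c J (II y) (bb y)) {a : ℝ} (ha : |a| ≤ 1 / 16)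
    (hac : |a| * Kc c ≤ 1 / 4) :
    |lam wl (GQ l0 J a (RR Rs) (II y))| ≤ (16 * ((Rs:ℝ) + 1) * (B2 c * |a|) * Real.log y) *
      lam w1 (GQ l0 J a (RR Rs) (II y)) := by
  refine (GQ_log2 hc h ha hac).trans ?_
  refine mul_le_mul_of_nonneg_right ?_ (le_trans (Real.exp_pos _).le (GQ2 goodW1 hc h (RR_ge Rs) ha hac).1)
  have h2 : ∀ i ∈ range J, 4 * (RR Rs i : ℝ) * Real.log (bb y i) * (B2 c * |a|) =
      8 * (B2 c * |a|) * Real.log y * (((Rs:ℝ) + i) * (1 / 4) ^ i) := by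
    intro i _
    rw [log_bb]
    unfold RR
    push_cast
    ring
  rw [sum_congr rfl h2, ← mul_sum]
  have h2 := geo_sum Rs J
  have h3 := Real.log_nonneg hy
  have h4 := B2_pos hc
  have h5 := abs_nonneg a
  calc _ ≤ 8 * (B2 c * |a|) * Real.log y * (2 * ((Rs:ℝ) + 1)) := mul_le_mul_of_nonneg_left h2 (by positivity)
    _ = _ := by ring

end

end Pool.Agent.H998_LP
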