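import Pool.Agent.H998_LP.Fin2
import Pool.Agent.TH806.Fin

set_option autoImplicit false

/-! The Lipschitz property at the exponent two. -/

namespace Pool.Agent.H998_LP

open Finset Filter MeasureTheory Topology
open Pool.Agent.TH806 (Xz Xz_nonneg Xz_cont Xz_pow_cont Xz_pow_le seg_small)

theorem lip_T : ∃ δ C : ℝ, 0 < δ ∧ δ ≤ 1 / 40 ∧ 0 < C ∧ ∀ᶠ T : ℝ in atTop, ∀ β : ℝ, |β - 2| ≤ δ →
    |(∫ t in (0:ℝ)..T, Xz t ^ β) - T * Real.log T ^ (β ^ 2 / 4)| ≤
      C * (|β - 2| + 1 / Real.log T) * (T * Real.log T ^ (β ^ 2 / 4)) := by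
  obtain ⟨δ, η, C, D, hδ, hδ1, hη, hC, hD, h⟩ := fx_T
  obtain ⟨C2, hC2, h2⟩ := sec_mom
  set K := Real.exp D * (C + 3 * D * (1 + Real.exp D) + (C2 + 1)) with hK
  refine ⟨δ, K, hδ, by linarith, by positivity, ?_⟩
  filter_upwards [h, h2, Real.tendsto_log_atTop.eventually_ge_atTop 1, eventually_ge_atTop (1:ℝ)] with
    T hT h2 hL1 hT1 β hβ
  obtain ⟨V, hV, hT⟩ := hT
  have hT0 : 0 < T := by linarith
  set L := Real.log T with hL
  have hL0 : 0 < L := by linarith
  set a := (β - 2) / 2 with ha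
  have hβa : β = 2 + 2 * a := by rw [ha]; ring
  have haβ : |β - 2| = 2 * |a| := by rw [hβa, add_sub_cancel_left, abs_mul, abs_two]
  have ha0 := abs_nonneg a
  have haδ : |a| ≤ δ := by linarith
  have ha4 : |a| ≤ 1 / 4 := by linarith
  obtain ⟨ha1, ha2⟩ := abs_le.mp ha4
  have h3 := hT a haδ
  set E' := Real.exp (-((a ^ 2 + 2 * a) * V)) with hE'
  have hE'0 : 0 < E' := Real.exp_pos _
  set I := ∫ t in (0:ℝ)..T, Xz t ^ β with hI
  set I2 := ∫ t in (0:ℝ)..T, Xz t ^ 2 with hI2
  have e1 : ∫ t in (0:ℝ)..T, FX a V t = E' * I - I2 := by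
    have c1 : Continuous fun t => E' * Xz t ^ (2 + 2 * a) := continuous_const.mul (Xz_pow_cont (by linarith))
    have c2 : Continuous fun t => Xz t ^ 2 := Xz_cont.pow 2
    have e3 : ∫ t in (0:ℝ)..T, FX a V t = ∫ t in (0:ℝ)..T, (E' * Xz t ^ (2 + 2 * a) - Xz t ^ 2) := rfl
    rw [e3, intervalIntegral.integral_sub (c1.intervalIntegrable _ _) (c2.intervalIntegrable _ _),
      intervalIntegral.integral_const_mul, ← hβa]
  rw [e1] at h3
  have h4 : T ^ (1 - η) ≤ T := by
    calc T ^ (1 - η) ≤ T ^ (1:ℝ) := Real.rpow_le_rpow_of_exponent_le hT1 (by linarith)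
      _ = T := Real.rpow_one T
  have h5 : |E' * I - T * L| ≤ C * |a| * (T * L) + (C2 + 1) * T := by
    have := abs_sub_le (E' * I) I2 (T * L)
    linarith
  have haa : |a ^ 2 + 2 * a| ≤ 3 * |a| := by
    refine (abs_add_le _ _).trans ?_
    rw [abs_mul, abs_two, abs_pow]
    nlinarith
  set v := (a ^ 2 + 2 * a) * (Real.log L - V) with hv
  have hvb : |v| ≤ 3 * |a| * D := by
    rw [hv, abs_mul, abs_sub_comm]
    exact mul_le_mul haa hV (abs_nonneg _) (by positivity)
  have hvD : |v| ≤ D := by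
    refine hvb.trans ?_
    have : 3 * |a| ≤ 1 := by linarith
    nlinarith
  obtain ⟨hv1, hv2⟩ := abs_le.mp hvD
  have hρ : |Real.exp v - 1| ≤ 3 * D * (1 + Real.exp D) * |a| := by
    refine (abs_exp_sub v).trans ?_
    have h6 : Real.exp v ≤ Real.exp D := Real.exp_le_exp.mpr hv2
    have h7 : 0 < Real.exp v := Real.exp_pos v
    calc |v| * (1 + Real.exp v) ≤ (3 * |a| * D) * (1 + Real.exp D) := by gcongr
      _ = _ := by ring
  set M := L ^ (β ^ 2 / 4) with hM
  have hM0 : 0 < M := by positivity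
  have hMe : E' * M = L * Real.exp v := by
    have e2 : M = L * Real.exp ((a ^ 2 + 2 * a) * Real.log L) := by
      rw [hM, Real.rpow_def_of_pos hL0, hβa]
      have : Real.log L * ((2 + 2 * a) ^ 2 / 4) = Real.log L + (a ^ 2 + 2 * a) * Real.log L := by ring
      rw [this, Real.exp_add, Real.exp_log hL0]
    rw [e2, mul_left_comm, hE', ← Real.exp_add, hv]
    congr 2; ring
  -- the comparison
  have hLM : L ≤ Real.exp D * (E' * M) := by
    rw [hMe, mul_left_comm, ← Real.exp_add]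
    exact le_mul_of_one_le_right hL0.le (Real.one_le_exp (by linarith))
  have hkey : E' * |I - T * M| ≤ E' * (K * (|β - 2| + 1 / L) * (T * M)) := by
    have e3 : E' * |I - T * M| = |E' * I - T * (E' * M)| := by
      rw [← abs_of_pos hE'0, ← abs_mul, abs_of_pos hE'0]; congr 1; ring
    have e4 : E' * I - T * (E' * M) = (E' * I - T * L) - (T * L) * (Real.exp v - 1) := by rw [hMe]; ring
    have h6 : |E' * I - T * (E' * M)| ≤ (C * |a| * (T * L) + (C2 + 1) * T) +
        (T * L) * (3 * D * (1 + Real.exp D) * |a|) := by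
      rw [e4]
      refine (abs_sub _ _).trans (add_le_add h5 ?_)
      rw [abs_mul, abs_of_pos (by positivity : 0 < T * L)]
      exact mul_le_mul_of_nonneg_left hρ (by positivity)
    have h7 : (C * |a| * (T * L) + (C2 + 1) * T) + (T * L) * (3 * D * (1 + Real.exp D) * |a|) ≤
        (C + 3 * D * (1 + Real.exp D) + (C2 + 1)) * (|β - 2| + 1 / L) * (T * L) := by
      rw [haβ]
      have e5 : (C2 + 1) * T = (C2 + 1) * (1 / L) * (T * L) := by field_simp
      rw [e5]
      have hTL : 0 ≤ T * L := by positivity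
      have hD' : 0 ≤ 3 * D * (1 + Real.exp D) := by positivity
      have hL' : 0 ≤ 1 / L := by positivity
      have p1 : 0 ≤ C * |a| := by positivity
      have p2 : 0 ≤ 3 * D * (1 + Real.exp D) * |a| := by positivity
      have p3 : 0 ≤ (C2 + 1) * |a| := by positivity
      have p4 : 0 ≤ C * (1 / L) := by positivity
      have p5 : 0 ≤ 3 * D * (1 + Real.exp D) * (1 / L) := by positivity
      have h8 : C * |a| + (C2 + 1) * (1 / L) + 3 * D * (1 + Real.exp D) * |a| ≤
          (C + 3 * D * (1 + Real.exp D) + (C2 + 1)) * (2 * |a| + 1 / L) := by nlinarith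
      calc _ = (C * |a| + (C2 + 1) * (1 / L) + 3 * D * (1 + Real.exp D) * |a|) * (T * L) := by ring
        _ ≤ _ := mul_le_mul_of_nonneg_right h8 hTL
    rw [e3]
    refine (h6.trans h7).trans ?_
    have h9 : 0 ≤ (C + 3 * D * (1 + Real.exp D) + (C2 + 1)) * (|β - 2| + 1 / L) * T := by positivity
    calc (C + 3 * D * (1 + Real.exp D) + (C2 + 1)) * (|β - 2| + 1 / L) * (T * L) =
        (C + 3 * D * (1 + Real.exp D) + (C2 + 1)) * (|β - 2| + 1 / L) * T * L := by ring
      _ ≤ (C + 3 * D * (1 + Real.exp D) + (C2 + 1)) * (|β - 2| + 1 / L) * T * (Real.exp D * (E' * M)) :=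
          mul_le_mul_of_nonneg_left hLM h9
      _ = _ := by rw [hK]; ring
  exact le_of_mul_le_mul_left hkey hE'0

theorem lip_shift : ∃ δ C : ℝ, 0 < δ ∧ δ ≤ 1 / 40 ∧ 0 < C ∧ ∀ x : ℝ, ∀ᶠ T : ℝ in atTop, ∀ β : ℝ, |β - 2| ≤ δ →
    |(∫ t in x..(T + x), Xz t ^ β) - T * Real.log T ^ (β ^ 2 / 4)| ≤
      C * (|β - 2| + 1 / Real.log T) * (T * Real.log T ^ (β ^ 2 / 4)) := by
  obtain ⟨δ, C, hδ, hδ1, hC, h⟩ := lip_T
  refine ⟨δ, 8 + 8 * C, hδ, hδ1, by positivity, fun x => ?_⟩
  have t1 : Tendsto (fun T : ℝ => T + |x|) atTop atTop := tendsto_atTop_add_const_right _ _ tendsto_id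
  have t2 : Tendsto (fun T : ℝ => T - |x|) atTop atTop := by
    simpa [sub_eq_add_neg] using tendsto_atTop_add_const_right atTop (-|x|) tendsto_id
  have hsm : ∀ᶠ T : ℝ in atTop, (2 * |x| + 24 ^ 3 * (1 + |x|) ^ 6 * |x|) * Real.log T ≤ T := by
    set B := 2 * |x| + 24 ^ 3 * (1 + |x|) ^ 6 * |x| with hB
    have hB0 : 0 ≤ B := by positivity
    have h1 := Real.isLittleO_log_id_atTop.bound (show 0 < 1 / (B + 1) by positivity)
    filter_upwards [h1, eventually_ge_atTop (1:ℝ)] with T hT hT1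
    simp only [id_eq] at hT
    rw [Real.norm_of_nonneg (Real.log_nonneg hT1), Real.norm_of_nonneg (by linarith), div_mul_eq_mul_div, one_mul,
      le_div_iff₀ (by positivity)] at hT
    have := Real.log_nonneg hT1
    nlinarith
  filter_upwards [t1.eventually h, t2.eventually h, hsm, eventually_ge_atTop (1:ℝ),
    Real.tendsto_log_atTop.eventually_ge_atTop 4] with T h1 h2 hsm hT1 hL4 β hβ
  have h1 := h1 β hβ
  have h2 := h2 β hβ
  have hT0 : 0 < T := by linarith
  set L := Real.log T with hL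
  have hL0 : 0 < L := by linarith
  have hx0 := abs_nonneg x
  have hβ40 : |β - 2| ≤ 1 / 40 := hβ.trans hδ1
  obtain ⟨hβ1, hβ2⟩ := abs_le.mp hβ40
  set S := 24 ^ 3 * (1 + |x|) ^ 6 * |x| with hS
  have hS0 : 0 ≤ S := by positivity
  have hxT : 2 * |x| * L ≤ T := by nlinarith [mul_nonneg hS0 hL0.le]
  have hST : S ≤ T / L := by rw [le_div_iff₀ hL0]; nlinarith [mul_nonneg hx0 hL0.le]
  have hxL : |x| ≤ T / L := by rw [le_div_iff₀ hL0]; nlinarith [mul_nonneg hx0 hL0.le]
  have hx8 : |x| ≤ T / 8 := by nlinarith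
  set m := β ^ 2 / 4 with hm
  have hm0 : 0 ≤ m := by positivity
  have hm2 : m ≤ 2 := by rw [hm]; nlinarith
  have hc : Continuous fun t => Xz t ^ β := Xz_pow_cont (by linarith)
  have hseg := seg_small (by linarith : 0 ≤ β) (by linarith : β ≤ 3) x
  rw [← hS] at hseg
  have hseg' := abs_le.mp hseg
  have e1 := intervalIntegral.integral_add_adjacent_intervals (hc.intervalIntegrable 0 x)
    (hc.intervalIntegrable x (T + x)) (μ := volume)
  have hmono : ∀ a b : ℝ, a ≤ b → (∫ t in (0:ℝ)..a, Xz t ^ β) ≤ ∫ t in (0:ℝ)..b, Xz t ^ β := by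
    intro a b hab
    have e := intervalIntegral.integral_add_adjacent_intervals (hc.intervalIntegrable 0 a)
      (hc.intervalIntegrable a b) (μ := volume)
    have : 0 ≤ ∫ t in a..b, Xz t ^ β := intervalIntegral.integral_nonneg hab fun t _ =>
      Real.rpow_nonneg (Xz_nonneg _) _
    linarith
  obtain ⟨hxx1, hxx2⟩ := abs_le.mp (le_refl |x|)
  have m1 := hmono (T + x) (T + |x|) (by linarith)
  have m2 := hmono (T - |x|) (T + x) (by linarith)
  set P := L ^ m with hP
  have hP0 : 0 < P := by positivity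
  have hP1 : 1 ≤ P := Real.one_le_rpow (by linarith) hm0
  set ε := |β - 2| + 1 / L with hε
  have hL' : 0 < 1 / L := by positivity
  have hb0 := abs_nonneg (β - 2)
  have hLε : 1 / L ≤ ε := by linarith
  have hL14 : 1 / L ≤ 1 / 4 := one_div_le_one_div_of_le (by norm_num) hL4
  have hε1 : ε ≤ 1 := by linarith
  have hε0 : 0 < ε := by linarith
  -- upper
  have l1 : L ≤ Real.log (T + |x|) := Real.log_le_log hT0 (by linarith)
  have l2 : Real.log (T + |x|) ≤ L * (1 + 1 / L) := by
    have e : T + |x| = T * (1 + |x| / T) := by field_simp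
    rw [e, Real.log_mul hT0.ne' (by positivity)]
    have h3 := Real.log_le_sub_one_of_pos (show 0 < 1 + |x| / T by positivity)
    have h4 : |x| / T ≤ 1 := by rw [div_le_one hT0]; linarith
    have h5 : L * (1 + 1 / L) = L + 1 := by field_simp
    rw [h5]; linarith
  have p1 : Real.log (T + |x|) ^ m ≤ (1 + 1 / L) ^ 2 * P := by
    calc Real.log (T + |x|) ^ m ≤ (L * (1 + 1 / L)) ^ m := Real.rpow_le_rpow (by linarith) l2 hm0
      _ = P * (1 + 1 / L) ^ m := Real.mul_rpow hL0.le (by positivity)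
      _ ≤ P * (1 + 1 / L) ^ (2:ℝ) := by
          refine mul_le_mul_of_nonneg_left ?_ hP0.le
          exact Real.rpow_le_rpow_of_exponent_le (by linarith) hm2
      _ = _ := by
          have : (1 + 1 / L) ^ (2:ℝ) = (1 + 1 / L) ^ 2 := by rw [← Real.rpow_natCast]; norm_num
          rw [this]; ring
  have q1 : T + |x| ≤ T * (1 + 1 / L) := by
    have : T * (1 + 1 / L) = T + T / L := by ring
    rw [this]; linarith
  have hup : (T + |x|) * Real.log (T + |x|) ^ m ≤ (1 + 7 * (1 / L)) * (T * P) := by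
    have h0 : 0 ≤ Real.log (T + |x|) ^ m := Real.rpow_nonneg (by linarith) _
    calc (T + |x|) * Real.log (T + |x|) ^ m ≤ (T * (1 + 1 / L)) * ((1 + 1 / L) ^ 2 * P) := by
          gcongr
      _ = (1 + 1 / L) ^ 3 * (T * P) := by ring
      _ ≤ _ := by
          refine mul_le_mul_of_nonneg_right ?_ (by positivity)
          nlinarith [mul_pos hL' hL']
  -- lower
  have hTx : 0 < T - |x| := by linarith
  have l3 : Real.log (T - |x|) ≤ L := Real.log_le_log hTx (by linarith)
  have l4 : L * (1 - 1 / L) ≤ Real.log (T - |x|) := by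
    have e : T - |x| = T * (1 - |x| / T) := by field_simp
    have h4 : |x| / T ≤ 1 / 8 := by rw [div_le_iff₀ hT0]; linarith
    rw [e, Real.log_mul hT0.ne' (by linarith)]
    have h3 := Real.one_sub_inv_le_log_of_pos (show 0 < 1 - |x| / T by linarith)
    have h6 : (1 - |x| / T)⁻¹ ≤ 2 := by
      rw [inv_le_comm₀ (by linarith) (by norm_num)]
      linarith
    have h5 : L * (1 - 1 / L) = L - 1 := by field_simp
    rw [h5]; linarith
  have hL34 : 0 < 1 - 1 / L := by linarith
  have p2 : (1 - 1 / L) ^ 2 * P ≤ Real.log (T - |x|) ^ m := by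
    calc (1 - 1 / L) ^ 2 * P = P * (1 - 1 / L) ^ (2:ℝ) := by
          have : (1 - 1 / L) ^ (2:ℝ) = (1 - 1 / L) ^ 2 := by rw [← Real.rpow_natCast]; norm_num
          rw [this]; ring
      _ ≤ P * (1 - 1 / L) ^ m := by
          refine mul_le_mul_of_nonneg_left ?_ hP0.le
          exact Real.rpow_le_rpow_of_exponent_ge hL34 (by linarith) hm2
      _ = (L * (1 - 1 / L)) ^ m := (Real.mul_rpow hL0.le hL34.le).symm
      _ ≤ _ := Real.rpow_le_rpow (by positivity) l4 hm0
  have q2 : T * (1 - 1 / L) ≤ T - |x| := by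
    have : T * (1 - 1 / L) = T - T / L := by ring
    rw [this]; linarith
  have hlow : (1 - 3 * (1 / L)) * (T * P) ≤ (T - |x|) * Real.log (T - |x|) ^ m := by
    calc (1 - 3 * (1 / L)) * (T * P) ≤ (1 - 1 / L) ^ 3 * (T * P) := by
          refine mul_le_mul_of_nonneg_right ?_ (by positivity)
          have e : (1 - 1 / L) ^ 3 - (1 - 3 * (1 / L)) = (1 / L) ^ 2 * (3 - 1 / L) := by ring
          have : 0 ≤ (1 / L) ^ 2 * (3 - 1 / L) := by
            have : 0 ≤ 3 - 1 / L := by linarith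
            positivity
          linarith
      _ = (T * (1 - 1 / L)) * ((1 - 1 / L) ^ 2 * P) := by ring
      _ ≤ _ := by gcongr
  have hlow2 : (T - |x|) * Real.log (T - |x|) ^ m ≤ T * P := by
    have h3 : 0 ≤ Real.log (T - |x|) := le_trans (by positivity) l4
    have h4 : Real.log (T - |x|) ^ m ≤ P := Real.rpow_le_rpow h3 l3 hm0
    have h5 : 0 ≤ Real.log (T - |x|) ^ m := Real.rpow_nonneg h3 _
    gcongr
    linarith
  have hll : 1 / Real.log (T - |x|) ≤ 2 * (1 / L) := by
    have h3 : L / 2 ≤ Real.log (T - |x|) := by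
      have h5 : L * (1 - 1 / L) = L - 1 := by field_simp
      rw [h5] at l4; linarith
    calc 1 / Real.log (T - |x|) ≤ 1 / (L / 2) := one_div_le_one_div_of_le (by positivity) h3
      _ = _ := by field_simp
  have hll' : 1 / Real.log (T + |x|) ≤ 1 / L := one_div_le_one_div_of_le hL0 l1
  set U := T * P with hU
  have hU0 : 0 < U := by positivity
  have hTU : T / L ≤ ε * U := by
    have : T / L = (1 / L) * T := by ring
    rw [this]
    have h3 : T ≤ U := le_mul_of_one_le_right hT0.le hP1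
    gcongr
  have hWu : (∫ t in (0:ℝ)..(T + |x|), Xz t ^ β) ≤ (1 + (7 + 8 * C) * ε) * U := by
    have h3 := (abs_le.mp h1).2
    set W := (T + |x|) * Real.log (T + |x|) ^ m with hW
    have hW0 : 0 ≤ W := by
      have : 0 ≤ Real.log (T + |x|) := by linarith
      positivity
    have h4 : C * (|β - 2| + 1 / Real.log (T + |x|)) * W ≤ C * ε * W := by
      refine mul_le_mul_of_nonneg_right (mul_le_mul_of_nonneg_left (by linarith) hC.le) hW0
    have h5 : (1 + C * ε) * W ≤ (1 + C * ε) * ((1 + 7 * (1 / L)) * U) :=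
      mul_le_mul_of_nonneg_left hup (by positivity)
    have h6 : (1 + C * ε) * (1 + 7 * (1 / L)) ≤ 1 + (7 + 8 * C) * ε := by
      have : C * ε * (7 * (1 / L)) ≤ C * ε * (7 * 1) := by gcongr; linarith
      nlinarith
    calc _ ≤ (1 + C * ε) * W := by linarith
      _ ≤ (1 + C * ε) * ((1 + 7 * (1 / L)) * U) := h5
      _ = ((1 + C * ε) * (1 + 7 * (1 / L))) * U := by ring
      _ ≤ _ := mul_le_mul_of_nonneg_right h6 hU0.le
  have hWl : (1 - (3 + 2 * C) * ε) * U ≤ ∫ t in (0:ℝ)..(T - |x|), Xz t ^ β := by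
    have h3 := (abs_le.mp h2).1
    set W := (T - |x|) * Real.log (T - |x|) ^ m with hW
    have hW0 : 0 ≤ W := by
      have h3 : 0 ≤ Real.log (T - |x|) := le_trans (by positivity) l4
      positivity
    have h4 : C * (|β - 2| + 1 / Real.log (T - |x|)) * W ≤ C * (2 * ε) * U := by
      have : |β - 2| + 1 / Real.log (T - |x|) ≤ 2 * ε := by linarith
      have h0 : 0 ≤ |β - 2| + 1 / Real.log (T - |x|) := by
        have h3 : 0 ≤ Real.log (T - |x|) := le_trans (by positivity) l4
        positivity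
      gcongr
    have h5 : (1 - 3 * (1 / L)) * U ≤ W := hlow
    have h6 : 3 * (1 / L) * U ≤ 3 * ε * U := by gcongr
    linarith
  rw [abs_le]
  constructor
  · have : 0 ≤ C * ε * U := by positivity
    have : 0 ≤ ε * U := by positivity
    linarith
  · have : 0 ≤ C * ε * U := by positivity
    have : 0 ≤ ε * U := by positivity
    linarith

end Pool.Agent.H998_LP
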