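import Pool.Agent.H998_LP.Lip

set_option autoImplicit false

/-! The mean of the logarithm with respect to the square of zeta. -/

namespace Pool.Agent.H998_LP

open Finset Filter MeasureTheory Topology
open Pool.Agent.TH806 (Xz Xz_nonneg Xz_cont Xz_pow_cont Xz_pow_le seg_small)

lemma convex_ptw {X h : ℝ} (hX : 0 ≤ X) (hh : |h| ≤ 1) : h * (X ^ 2 * Real.log X) ≤ X ^ (2 + h) - X ^ 2 := by
  have h1 := (abs_le.mp hh).1
  rcases hX.eq_or_lt with h0 | h0
  · rw [← h0, Real.zero_rpow (by linarith)]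
    simp
  · have e : X ^ (2 + h) = X ^ 2 * Real.exp (Real.log X * h) := by
      rw [Real.rpow_add h0, Real.rpow_def_of_pos h0 h, ← Real.rpow_natCast X 2]
      norm_num
    rw [e]
    have h2 := Real.add_one_le_exp (Real.log X * h)
    have h3 : 0 < X ^ 2 := by positivity
    nlinarith [mul_le_mul_of_nonneg_left h2 h3.le]

lemma sqlog_cont : Continuous fun t => Xz t ^ 2 * Real.log (Xz t) := by
  have h1 : Continuous fun x : ℝ => x ^ 2 * Real.log x := by
    have : (fun x : ℝ => x ^ 2 * Real.log x) = fun x => x * (x * Real.log x) := by funext x; ring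
    rw [this]
    exact continuous_id.mul Real.continuous_mul_log
  exact h1.comp Xz_cont

theorem log_mean : ∃ C : ℝ, 0 < C ∧ ∀ x : ℝ, ∀ᶠ T : ℝ in atTop,
    |(∫ t in x..(T + x), Xz t ^ 2 * Real.log (Xz t)) - T * (Real.log T * Real.log (Real.log T))| ≤
      C * (T * Real.log T) := by
  obtain ⟨δ, C, hδ, hδ1, hC, h⟩ := lip_shift
  refine ⟨8 + 20 * C, by positivity, fun x => ?_⟩
  have hsm : ∀ᶠ T : ℝ in atTop, Real.log (Real.log T) ^ 2 ≤ Real.log T / 16 := by
    have h1 : ∀ᶠ L : ℝ in atTop, Real.log L ^ 2 ≤ L / 16 := by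
      have h2 := (isLittleO_log_rpow_atTop (r := 1 / 2) (by norm_num)).bound (c := 1 / 4) (by norm_num)
      filter_upwards [h2, eventually_ge_atTop (1:ℝ)] with L hL hL1
      rw [Real.norm_of_nonneg (Real.log_nonneg hL1), Real.norm_of_nonneg (by positivity)] at hL
      have h3 : Real.log L ^ 2 ≤ (1 / 4 * L ^ (1 / 2 : ℝ)) ^ 2 := pow_le_pow_left₀ (Real.log_nonneg hL1) hL 2
      have h4 : (1 / 4 * L ^ (1 / 2 : ℝ)) ^ 2 = L / 16 := by
        rw [mul_pow, ← Real.rpow_natCast (L ^ (1 / 2 : ℝ)) 2, ← Real.rpow_mul (by linarith)]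
        norm_num; ring
      linarith
    exact Real.tendsto_log_atTop.eventually h1
  filter_upwards [h x, hsm, eventually_ge_atTop (1:ℝ), Real.tendsto_log_atTop.eventually_ge_atTop 4,
    Real.tendsto_log_atTop.eventually_ge_atTop (1 / δ)] with T hT hsm hT1 hL4 hLδ
  have hT0 : 0 < T := by linarith
  set L := Real.log T with hL
  have hL0 : 0 < L := by linarith
  set ℓ := Real.log L with hℓ
  have hℓ0 : 0 ≤ ℓ := Real.log_nonneg (by linarith)
  set W : ℝ → ℝ := fun β => ∫ t in x..(T + x), Xz t ^ β with hW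
  set I := ∫ t in x..(T + x), Xz t ^ 2 * Real.log (Xz t) with hI
  have hxT : x ≤ T + x := by linarith
  have hhL : 1 / L ≤ δ := by
    rw [div_le_iff₀ hδ] at hLδ
    rw [div_le_iff₀ hL0]; linarith
  have hL14 : 1 / L ≤ 1 / 4 := one_div_le_one_div_of_le (by norm_num) hL4
  have hLp : 0 < 1 / L := by positivity
  have e2 : ∀ t, Xz t ^ (2:ℝ) = Xz t ^ 2 := fun t => by rw [← Real.rpow_natCast]; norm_num
  -- the general inequality
  have key : ∀ s : ℝ, |s| = 1 → s * I ≤ T * (L * (s * ℓ)) + (8 + 20 * C) * (T * L) := by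
    intro s hs
    set hh := s * (1 / L) with hhh
    have hhabs : |hh| = 1 / L := by rw [hhh, abs_mul, hs, one_mul, abs_of_pos hLp]
    have h1 : hh * I ≤ W (2 + hh) - W 2 := by
      have c1 : Continuous fun t => Xz t ^ (2 + hh) := Xz_pow_cont (by have := neg_abs_le hh; linarith)
      have c2 : Continuous fun t => Xz t ^ (2:ℝ) := Xz_pow_cont (by norm_num)
      rw [hW]
      simp only
      rw [← intervalIntegral.integral_sub (c1.intervalIntegrable _ _) (c2.intervalIntegrable _ _), hI,
        ← intervalIntegral.integral_const_mul]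
      refine intervalIntegral.integral_mono_on hxT ((sqlog_cont.const_smul hh).intervalIntegrable _ _)
        ((c1.sub c2).intervalIntegrable _ _) fun t _ => ?_
      rw [e2]
      exact convex_ptw (Xz_nonneg t) (by linarith)
    have h2 := (abs_le.mp (hT (2 + hh) (by rw [add_sub_cancel_left, hhabs]; exact hhL))).2
    have h3 := (abs_le.mp (hT 2 (by rw [sub_self, abs_zero]; exact hδ.le))).1
    rw [add_sub_cancel_left, hhabs] at h2
    have e3 : L ^ ((2:ℝ) ^ 2 / 4) = L := by norm_num
    rw [sub_self, abs_zero, zero_add, e3] at h3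
    set w := (hh + hh ^ 2 / 4) * ℓ with hw
    have e4 : L ^ ((2 + hh) ^ 2 / 4) = L * Real.exp w := by
      rw [Real.rpow_def_of_pos hL0, ← hℓ]
      have : ℓ * ((2 + hh) ^ 2 / 4) = ℓ + w := by rw [hw]; ring
      rw [this, Real.exp_add, hℓ, Real.exp_log hL0]
    rw [e4] at h2
    have hℓL : ℓ ≤ L / 4 := by
      have : ℓ ^ 2 ≤ (L / 4) ^ 2 := by
        have : L / 16 ≤ (L / 4) ^ 2 := by nlinarith
        linarith
      exact abs_le_of_sq_le_sq' this (by positivity) |>.2
    have hwb : |w| ≤ 2 * ℓ / L := by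
      rw [hw, abs_mul, abs_of_nonneg hℓ0]
      have h5 : |hh + hh ^ 2 / 4| ≤ 2 / L := by
        refine (abs_add_le _ _).trans ?_
        rw [abs_div, abs_pow, hhabs]
        have : (1 / L) ^ 2 / |(4:ℝ)| ≤ 1 / L := by
          rw [abs_of_pos (by norm_num : (0:ℝ) < 4)]
          nlinarith
        have e : 2 / L = 1 / L + 1 / L := by ring
        rw [e]; linarith
      calc _ ≤ 2 / L * ℓ := mul_le_mul_of_nonneg_right h5 hℓ0
        _ = _ := by ring
    have hw1 : |w| ≤ 1 := by
      refine hwb.trans ?_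
      rw [div_le_one hL0]; linarith
    have hexp : Real.exp w ≤ 1 + w + w ^ 2 := by
      have := Real.abs_exp_sub_one_sub_id_le hw1
      have := (abs_le.mp this).2
      linarith
    have hexp3 : Real.exp w ≤ 3 := by
      have := (abs_le.mp hw1).2
      calc Real.exp w ≤ Real.exp 1 := Real.exp_le_exp.mpr this
        _ ≤ 3 := by have := Real.exp_one_lt_d9; linarith
    have hw2 : w ^ 2 ≤ 1 / (4 * L) := by
      have h5 : w ^ 2 ≤ (2 * ℓ / L) ^ 2 := by
        rw [← sq_abs]; exact pow_le_pow_left₀ (abs_nonneg _) hwb 2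
      have h6 : (2 * ℓ / L) ^ 2 ≤ 1 / (4 * L) := by
        rw [div_pow, mul_pow, div_le_div_iff₀ (by positivity) (by positivity)]
        nlinarith [mul_le_mul_of_nonneg_right hsm hL0.le]
      linarith
    -- combine
    have h7 : hh * I ≤ T * L * (w + 1 / (4 * L)) + C * (2 * (1 / L)) * (T * (L * 3)) + C * (1 / L) * (T * L) := by
      have h8 : T * (L * Real.exp w) - T * L ≤ T * L * (w + 1 / (4 * L)) := by
        have : T * L * (Real.exp w - 1) ≤ T * L * (w + 1 / (4 * L)) :=
          mul_le_mul_of_nonneg_left (by linarith) (by positivity)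
        linarith
      have h9 : C * (1 / L + 1 / L) * (T * (L * Real.exp w)) ≤ C * (2 * (1 / L)) * (T * (L * 3)) := by
        have : 1 / L + 1 / L = 2 * (1 / L) := by ring
        rw [this]
        gcongr
      linarith
    have h10 : s * I = L * (hh * I) := by rw [hhh]; field_simp
    rw [h10]
    have h11 := mul_le_mul_of_nonneg_left h7 hL0.le
    refine h11.trans ?_
    have e5 : L * (T * L * (w + 1 / (4 * L)) + C * (2 * (1 / L)) * (T * (L * 3)) + C * (1 / L) * (T * L)) =
        T * L * (L * w) + T * L / 4 + 7 * C * (T * L) := by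
      field_simp; ring
    rw [e5]
    have e6 : L * w = s * ℓ + s ^ 2 * (ℓ / (4 * L)) := by
      rw [hw, hhh]; field_simp
    have hs2 : s ^ 2 = 1 := by rw [← sq_abs, hs]; norm_num
    rw [e6, hs2, one_mul]
    have h12 : ℓ / (4 * L) ≤ 1 := by
      rw [div_le_one (by positivity)]; linarith
    have hTL : 0 < T * L := by positivity
    nlinarith [mul_le_mul_of_nonneg_left h12 hTL.le, mul_pos hC hTL]
  have k1 := key 1 (by simp)
  have k2 := key (-1) (by simp)
  rw [abs_le]
  constructor <;> linarith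

end Pool.Agent.H998_LP
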