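import Pool.Agent.H998_TS.Pt
import Pool.Agent.TH806.Ptw

set_option autoImplicit false

/-! Pointwise inequalities whose error is linear in the exponent. -/

namespace Pool.Agent.H998_LP

open Finset Real
open Pool.Agent.W184.NZ
open Pool.Agent.H998_TS (Gd Bd' mem_Gd mem_Bd' prod_gd sum_gd one_sub_prod)

/-- tail of the exponential series -/
lemma tail_le {s r : ℝ} (hs0 : 0 ≤ s) (hs1 : s ≤ 1) (hr : 0 ≤ r) (n : ℕ) :
    Real.exp (s * r) - ∑ m ∈ range n, (s * r) ^ m / (m.factorial : ℝ) ≤ s ^ n * Real.exp r := by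
  have hex : ∀ u : ℝ, ∑ j ∈ range n, u ^ j / (j.factorial : ℝ) + ∑' i : ℕ, u ^ (i + n) / ((i + n).factorial : ℝ) =
      Real.exp u := by
    intro u
    rw [(Real.summable_pow_div_factorial u).sum_add_tsum_nat_add n, Real.exp_eq_exp_ℝ,
      NormedSpace.exp_eq_tsum_div]
  have hs : ∀ u : ℝ, Summable fun i : ℕ => u ^ (i + n) / ((i + n).factorial : ℝ) := fun u =>
    (summable_nat_add_iff n).mpr (Real.summable_pow_div_factorial u)
  have h1 : ∑' i : ℕ, (s * r) ^ (i + n) / ((i + n).factorial : ℝ) ≤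
      s ^ n * ∑' i : ℕ, r ^ (i + n) / ((i + n).factorial : ℝ) := by
    rw [← tsum_mul_left]
    refine (hs _).tsum_le_tsum (fun i => ?_) ((hs _).mul_left _)
    rw [mul_pow, mul_div_assoc]
    refine mul_le_mul_of_nonneg_right ?_ (by positivity)
    exact pow_le_pow_of_le_one hs0 hs1 (by omega)
  have h2 : ∑' i : ℕ, r ^ (i + n) / ((i + n).factorial : ℝ) ≤ Real.exp r := by
    have := hex r
    have h3 : 0 ≤ ∑ j ∈ range n, r ^ j / (j.factorial : ℝ) := by positivity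
    linarith
  have h4 : s ^ n * ∑' i : ℕ, r ^ (i + n) / ((i + n).factorial : ℝ) ≤ s ^ n * Real.exp r := by gcongr
  have := hex (s * r)
  linarith

/-- truncation error -/
lemma nk_tail {s r : ℝ} (hs0 : 0 ≤ s) (hs1 : s ≤ 1) (hr : 0 ≤ r) (K : ℕ) {a : ℝ} {z : ℂ}
    (hz : |a| * ‖z‖ ≤ s * r) : ‖NK K a z - Complex.exp (a * z)‖ ≤ s ^ (K + 1) * Real.exp r := by
  have h := Complex.norm_exp_sub_sum_le_exp_norm_sub_sum ((a:ℂ) * z) (K + 1)
  rw [norm_sub_rev, NK_eq]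
  refine h.trans ?_
  rw [norm_mul, Complex.norm_real, Real.norm_eq_abs]
  have h0 : 0 ≤ |a| * ‖z‖ := by positivity
  obtain ⟨s', h1, h2, h3⟩ : ∃ s' : ℝ, 0 ≤ s' ∧ s' ≤ s ∧ |a| * ‖z‖ = s' * r := by
    rcases hr.eq_or_lt with h1 | h1
    · refine ⟨0, le_rfl, hs0, ?_⟩
      rw [← h1, mul_zero] at hz
      rw [zero_mul]
      exact le_antisymm hz h0
    · refine ⟨|a| * ‖z‖ / r, by positivity, ?_, by field_simp⟩
      rw [div_le_iff₀ h1]; exact hz
  rw [h3]
  refine (tail_le h1 (h2.trans hs1) hr (K + 1)).trans ?_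
  gcongr

lemma nk_err {a : ℝ} (ha : |a| ≤ 1 / 16) (R : ℕ) (z : ℂ) :
    ‖NK R a z - Complex.exp (a * z)‖ ≤ |a| * ((1 / 16) ^ R * Real.exp ‖z‖) := by
  refine (nk_tail (abs_nonneg a) (by linarith) (norm_nonneg z) R le_rfl).trans ?_
  rw [pow_succ]
  have : |a| ^ R ≤ (1 / 16) ^ R := pow_le_pow_left₀ (abs_nonneg a) ha R
  calc |a| ^ R * |a| * Real.exp ‖z‖ ≤ (1 / 16) ^ R * |a| * Real.exp ‖z‖ := by gcongr
    _ = _ := by ring

lemma exp_num : Real.exp (21 / 8) ≤ 16 := by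
  have h1 : Real.exp (21 / 8) ^ 8 ≤ 16 ^ 8 := by
    have e : Real.exp (21 / 8) ^ 8 = Real.exp 1 ^ 21 := by
      rw [← Real.exp_nat_mul, ← Real.exp_nat_mul]; norm_num
    rw [e]
    calc Real.exp 1 ^ 21 ≤ (2.7182818286:ℝ) ^ 21 := pow_le_pow_left₀ (Real.exp_pos 1).le Real.exp_one_lt_d9.le 21
      _ ≤ 16 ^ 8 := by norm_num
  exact (pow_le_pow_iff_left₀ (Real.exp_pos _).le (by norm_num) (by norm_num)).mp h1

lemma norm_exp_real (a : ℝ) (z : ℂ) : ‖Complex.exp (a * z)‖ = Real.exp (a * z.re) := by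
  rw [Complex.norm_exp]
  congr 1
  simp

/-- a block with a moderate value -/
lemma good_one {a : ℝ} (ha : |a| ≤ 1 / 16) {R : ℕ} {z : ℂ} (hz : ‖z‖ ≤ 2 * R) :
    |‖NK R a z‖ ^ 2 * Real.exp (-(2 * a * z.re)) - 1| ≤ 3 * |a| * Real.exp (-(R:ℝ) / 2) := by
  have h1 := nk_err ha R z
  have hR : (0:ℝ) ≤ R := Nat.cast_nonneg R
  set x := Real.exp (-(R:ℝ) / 2) with hx
  have hx1 : x ≤ 1 := Real.exp_le_one_iff.mpr (by linarith)
  have hx0 : 0 < x := Real.exp_pos _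
  have h2 : (1 / 16 : ℝ) ^ R * Real.exp ‖z‖ ≤ x * Real.exp (-(1 / 8 * (R:ℝ))) := by
    have h3 : (1 / 16 : ℝ) ^ R ≤ Real.exp (-(21 / 8 * (R:ℝ))) := by
      have h4 : (1 / 16 : ℝ) ≤ Real.exp (-(21 / 8)) := by
        rw [Real.exp_neg, one_div]
        exact inv_anti₀ (Real.exp_pos _) exp_num
      calc (1 / 16 : ℝ) ^ R ≤ Real.exp (-(21 / 8)) ^ R := pow_le_pow_left₀ (by norm_num) h4 R
        _ = _ := by rw [← Real.exp_nat_mul]; congr 1; ring
    calc (1 / 16 : ℝ) ^ R * Real.exp ‖z‖ ≤ Real.exp (-(21 / 8 * (R:ℝ))) * Real.exp (2 * R) := by gcongr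
      _ = x * Real.exp (-(1 / 8 * (R:ℝ))) := by
        rw [hx, ← Real.exp_add, ← Real.exp_add]; congr 1; ring
  have hre : |a * z.re| ≤ 1 / 8 * R := by
    rw [abs_mul]
    have := Complex.abs_re_le_norm z
    calc |a| * |z.re| ≤ 1 / 16 * (2 * R) := mul_le_mul ha (this.trans hz) (abs_nonneg _) (by norm_num)
      _ = _ := by ring
  obtain ⟨hre1, hre2⟩ := abs_le.mp hre
  set w := NK R a z * Complex.exp (-(a * z)) with hw
  have hw1 : ‖w - 1‖ ≤ |a| * x := by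
    have e : w - 1 = (NK R a z - Complex.exp (a * z)) * Complex.exp (-(a * z)) := by
      rw [hw, sub_mul, ← Complex.exp_add]; simp
    rw [e, norm_mul]
    have e2 : ‖Complex.exp (-((a:ℂ) * z))‖ = Real.exp (-(a * z.re)) := by
      rw [Complex.norm_exp]; congr 1; simp
    rw [e2]
    calc _ ≤ |a| * ((1 / 16) ^ R * Real.exp ‖z‖) * Real.exp (1 / 8 * R) := by
          gcongr; linarith
      _ ≤ |a| * (x * Real.exp (-(1 / 8 * (R:ℝ)))) * Real.exp (1 / 8 * R) := by gcongr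
      _ = |a| * x := by
          rw [mul_assoc, mul_assoc, ← Real.exp_add]; simp
  have hw2 : ‖NK R a z‖ ^ 2 * Real.exp (-(2 * a * z.re)) = ‖w‖ ^ 2 := by
    rw [hw, norm_mul, mul_pow]
    congr 1
    rw [Complex.norm_exp, ← Real.exp_nat_mul]
    congr 1
    simp; ring
  rw [hw2]
  have h5 : |‖w‖ - 1| ≤ |a| * x := by
    have := abs_norm_sub_norm_le w 1
    rw [norm_one] at this
    exact this.trans hw1
  have h6 : |a| * x ≤ 1 / 16 := by nlinarith [abs_nonneg a]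
  have h7 : ‖w‖ ^ 2 - 1 = (‖w‖ - 1) * (‖w‖ + 1) := by ring
  rw [h7, abs_mul]
  have h8 : |‖w‖ + 1| ≤ 3 := by
    rw [abs_of_nonneg (by positivity)]
    have := (abs_le.mp h5).2
    linarith
  calc _ ≤ (|a| * x) * 3 := mul_le_mul h5 h8 (abs_nonneg _) (by positivity)
    _ = _ := by ring

/-- a block with a large value -/
lemma bad_one {a : ℝ} (ha : |a| ≤ 1 / 16) {R : ℕ} (hR : 4 ≤ R) {z : ℂ} (hz : 2 * (R:ℝ) < ‖z‖) :
    |‖NK R a z‖ ^ 2 - 1| ≤ |a| * ((‖z‖ / R) ^ (2 * R) - 1) := by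
  have hR' : (4:ℝ) ≤ R := by exact_mod_cast hR
  have hR0 : (0:ℝ) < R := by linarith
  set r := ‖z‖ with hr
  set q := r / (2 * R) with hq
  have hq1 : 1 ≤ q := by rw [hq, le_div_iff₀ (by positivity)]; linarith
  have hr0 : r = q * (2 * R) := by rw [hq]; field_simp
  set E := q ^ R * Real.exp (R / 8) with hE
  have hE1 : 1 ≤ E := by
    have h1 : 1 ≤ q ^ R := one_le_pow₀ hq1
    have h2 : 1 ≤ Real.exp ((R:ℝ) / 8) := Real.one_le_exp (by positivity)
    calc (1:ℝ) = 1 * 1 := by ring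
      _ ≤ _ := mul_le_mul h1 h2 zero_le_one (by positivity)
  have h1 : ‖NK R a z - 1‖ ≤ 16 * |a| * E := by
    rw [NK_eq, sum_range_succ', pow_zero, Nat.factorial_zero, Nat.cast_one, div_one, add_sub_cancel_right]
    refine (norm_sum_le _ _).trans ?_
    have h2 : ∀ m ∈ range R, ‖((a:ℂ) * z) ^ (m + 1) / ((m + 1).factorial : ℂ)‖ ≤
        16 * |a| * (q ^ R * ((R / 8) ^ (m + 1) / ((m + 1).factorial : ℝ))) := by
      intro m hm
      rw [mem_range] at hm
      rw [norm_div, norm_pow, norm_mul, Complex.norm_real, Real.norm_eq_abs, Complex.norm_natCast, ← hr, hr0]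
      have e1 : (|a| * (q * (2 * R))) ^ (m + 1) = |a| ^ (m + 1) * (q ^ (m + 1) * (2 * R) ^ (m + 1)) := by
        rw [mul_pow, mul_pow]
      have h3 : |a| ^ (m + 1) ≤ 16 * |a| * (1 / 16) ^ (m + 1) := by
        rw [pow_succ, pow_succ]
        have : |a| ^ m ≤ (1 / 16) ^ m := pow_le_pow_left₀ (abs_nonneg a) ha m
        calc |a| ^ m * |a| ≤ (1 / 16) ^ m * |a| := by gcongr
          _ = _ := by ring
      have h4 : q ^ (m + 1) ≤ q ^ R := pow_le_pow_right₀ hq1 (by omega)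
      have e2 : ((R:ℝ) / 8) ^ (m + 1) = (1 / 16) ^ (m + 1) * (2 * R) ^ (m + 1) := by
        rw [← mul_pow]; congr 1; ring
      rw [e1, e2]
      calc |a| ^ (m + 1) * (q ^ (m + 1) * (2 * R) ^ (m + 1)) / ((m + 1).factorial : ℝ) ≤
          (16 * |a| * (1 / 16) ^ (m + 1)) * (q ^ R * (2 * R) ^ (m + 1)) / ((m + 1).factorial : ℝ) := by gcongr
        _ = _ := by ring
    refine (sum_le_sum h2).trans ?_
    rw [← mul_sum, ← mul_sum, hE]
    have h5 : ∑ m ∈ range R, ((R:ℝ) / 8) ^ (m + 1) / ((m + 1).factorial : ℝ) ≤ Real.exp (R / 8) := by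
      have := Real.sum_le_exp_of_nonneg (show (0:ℝ) ≤ R / 8 by positivity) (R + 1)
      rw [sum_range_succ'] at this
      simp only [pow_zero, Nat.factorial_zero, Nat.cast_one, div_one] at this
      linarith
    gcongr
  have h2 : ‖NK R a z‖ ≤ 2 * E := by
    have h3 : ‖NK R a z‖ ≤ ‖NK R a z - 1‖ + ‖(1:ℂ)‖ := by
      have := norm_add_le (NK R a z - 1) 1
      simpa using this
    rw [norm_one] at h3
    have : 16 * |a| * E ≤ 1 * E := mul_le_mul_of_nonneg_right (by linarith) (by linarith)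
    linarith
  have h3 : |‖NK R a z‖ - 1| ≤ 16 * |a| * E := by
    have := abs_norm_sub_norm_le (NK R a z) 1
    rw [norm_one] at this
    exact this.trans h1
  have h4 : ‖NK R a z‖ ^ 2 - 1 = (‖NK R a z‖ - 1) * (‖NK R a z‖ + 1) := by ring
  have h5 : |‖NK R a z‖ + 1| ≤ 3 * E := by
    rw [abs_of_nonneg (by positivity)]; linarith
  have h6 : |‖NK R a z‖ ^ 2 - 1| ≤ |a| * (48 * E ^ 2) := by
    rw [h4, abs_mul]
    calc _ ≤ (16 * |a| * E) * (3 * E) := mul_le_mul h3 h5 (abs_nonneg _) (by positivity)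
      _ = _ := by ring
  refine h6.trans (mul_le_mul_of_nonneg_left ?_ (abs_nonneg a))
  have e3 : (r / R) ^ (2 * R) = (q ^ R) ^ 2 * 4 ^ R := by
    have : r / R = q * 2 := by rw [hr0]; field_simp
    rw [this, mul_pow, pow_mul, pow_mul, ← pow_mul q R 2, ← pow_mul q 2 R, mul_comm 2 R]
    norm_num
  rw [e3, hE, mul_pow, ← Real.exp_nat_mul]
  have h7 : 1 + 48 * Real.exp (((2:ℕ):ℝ) * (R / 8)) ≤ 4 ^ R := by
    have e4 : Real.exp (((2:ℕ):ℝ) * (R / 8)) = Real.exp (1 / 4) ^ R := by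
      rw [← Real.exp_nat_mul]; congr 1; push_cast; ring
    have e5 : Real.exp (1 / 4) ≤ 1.3 := by
      have h8 : Real.exp (1 / 4) ^ 4 ≤ 1.3 ^ 4 := by
        rw [← Real.exp_nat_mul]; norm_num
        have := Real.exp_one_lt_d9
        linarith
      exact (pow_le_pow_iff_left₀ (Real.exp_pos _).le (by norm_num) (by norm_num)).mp h8
    rw [e4]
    obtain ⟨m, rfl⟩ := Nat.exists_eq_add_of_le hR
    have h9 : Real.exp (1 / 4) ^ (4 + m) ≤ 1.3 ^ (4 + m) := pow_le_pow_left₀ (Real.exp_pos _).le e5 _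
    have h10 : (1.3:ℝ) ^ (4 + m) ≤ 3 * 4 ^ m := by
      rw [pow_add]
      have h12 : (1.3:ℝ) ^ m ≤ 4 ^ m := pow_le_pow_left₀ (by norm_num) (by norm_num) m
      have h13 : (0:ℝ) < 4 ^ m := by positivity
      norm_num at h12 ⊢
      linarith
    have h11 : (1:ℝ) ≤ 4 ^ m := one_le_pow₀ (by norm_num)
    calc 1 + 48 * Real.exp (1 / 4) ^ (4 + m) ≤ 4 ^ m + 48 * (3 * 4 ^ m) := by linarith
      _ = 145 * 4 ^ m := by ring
      _ ≤ 256 * 4 ^ m := by linarith
      _ = 4 ^ (4 + m) := by rw [pow_add]; norm_num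
  have h8 : 1 ≤ (q ^ R) ^ 2 := one_le_pow₀ (one_le_pow₀ hq1)
  nlinarith [mul_le_mul_of_nonneg_left h7 (by linarith : 0 ≤ (q ^ R) ^ 2)]

/-- a product of factors close to one -/
lemma prod_near {ι : Type*} (s : Finset ι) {x θ : ι → ℝ} (h : ∀ i ∈ s, |x i - 1| ≤ θ i) :
    |∏ i ∈ s, x i - 1| ≤ Real.exp (∑ i ∈ s, θ i) - 1 := by
  classical
  induction s using Finset.induction_on with
  | empty => simp
  | insert i s hi ih =>
    have h1 := ih fun j hj => h j (mem_insert_of_mem hj)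
    have h2 := h i (mem_insert_self i s)
    rw [sum_insert hi, prod_insert hi, Real.exp_add]
    set P := ∏ i ∈ s, x i
    set Q := Real.exp (∑ i ∈ s, θ i)
    have hQ0 : 0 < Q := Real.exp_pos _
    have h3 : |P| ≤ Q := by
      have := abs_sub_abs_le_abs_sub P 1
      rw [abs_one] at this
      linarith
    have h4 : θ i + 1 ≤ Real.exp (θ i) := Real.add_one_le_exp _
    have e : x i * P - 1 = (x i - 1) * P + (P - 1) := by ring
    rw [e]
    refine (abs_add_le _ _).trans ?_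
    rw [abs_mul]
    have h5 : |x i - 1| * |P| ≤ θ i * Q := mul_le_mul h2 h3 (abs_nonneg _) ((abs_nonneg _).trans h2)
    nlinarith

/-- a product of factors with a linear bound -/
lemma prod_lin {ι : Type*} (s : Finset ι) {x w : ι → ℝ} {a : ℝ} (ha : a ≤ 1)
    (h : ∀ i ∈ s, |x i - 1| ≤ a * (w i - 1)) (hw : ∀ i ∈ s, 1 ≤ w i) :
    |∏ i ∈ s, x i - 1| ≤ a * (∏ i ∈ s, w i - 1) ∧ 1 ≤ ∏ i ∈ s, w i := by
  classical
  induction s using Finset.induction_on with
  | empty => simp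
  | insert i s hi ih =>
    obtain ⟨h1, h1'⟩ := ih (fun j hj => h j (mem_insert_of_mem hj)) fun j hj => hw j (mem_insert_of_mem hj)
    have h2 := h i (mem_insert_self i s)
    have h2' := hw i (mem_insert_self i s)
    rw [prod_insert hi, prod_insert hi]
    set P := ∏ i ∈ s, x i
    set Q := ∏ i ∈ s, w i
    have h3 : |P| ≤ Q := by
      have := abs_sub_abs_le_abs_sub P 1
      rw [abs_one] at this
      have h5 : a * (Q - 1) ≤ 1 * (Q - 1) := mul_le_mul_of_nonneg_right ha (by linarith)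
      linarith
    have e : x i * P - 1 = (x i - 1) * P + (P - 1) := by ring
    constructor
    · rw [e]
      refine (abs_add_le _ _).trans ?_
      rw [abs_mul]
      have h5 : |x i - 1| * |P| ≤ a * (w i - 1) * Q := mul_le_mul h2 h3 (abs_nonneg _) ((abs_nonneg _).trans h2)
      nlinarith
    · nlinarith

/-- powers and logarithms -/
lemma log_pow_le {β u : ℝ} (h1 : 1 ≤ β) (h3 : β ≤ 3) (hu : 0 < u) : u ^ β * |Real.log u| ≤ 1 + u ^ 4 := by
  have hu4 : 0 < u ^ 4 := by positivity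
  rcases le_total 1 u with h | h
  · have h4 : |Real.log u| ≤ u := by
      rw [abs_of_nonneg (Real.log_nonneg h)]
      have := Real.log_le_sub_one_of_pos hu
      linarith
    have h5 : u ^ β ≤ u ^ 3 := by
      rw [← Real.rpow_natCast]
      exact Real.rpow_le_rpow_of_exponent_le h (by exact_mod_cast h3)
    calc u ^ β * |Real.log u| ≤ u ^ 3 * u := by gcongr
      _ = u ^ 4 := by ring
      _ ≤ _ := by linarith
  · have h4 : |Real.log u| ≤ u⁻¹ := by
      rw [← abs_neg, ← Real.log_inv, abs_of_nonneg (Real.log_nonneg ((one_le_inv₀ hu).mpr h))]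
      have := Real.log_le_sub_one_of_pos (inv_pos.mpr hu)
      linarith
    have h5 : u ^ β ≤ u := by
      calc u ^ β ≤ u ^ (1:ℝ) := Real.rpow_le_rpow_of_exponent_ge hu h h1
        _ = u := Real.rpow_one u
    calc u ^ β * |Real.log u| ≤ u * u⁻¹ := by gcongr
      _ = 1 := by field_simp
      _ ≤ _ := by linarith

lemma abs_exp_sub (v : ℝ) : |Real.exp v - 1| ≤ |v| * (1 + Real.exp v) := by
  rcases le_total 0 v with h | h
  · rw [abs_of_nonneg h, abs_of_nonneg (by have := Real.one_le_exp h; linarith)]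
    have h1 := Real.add_one_le_exp (-v)
    have h2 : Real.exp v * Real.exp (-v) = 1 := by rw [← Real.exp_add]; simp
    have h3 : 0 < Real.exp v := Real.exp_pos v
    nlinarith
  · rw [abs_of_nonpos h, abs_of_nonpos (by have := Real.exp_le_one_iff.mpr h; linarith)]
    have h1 := Real.add_one_le_exp v
    have h3 : 0 < Real.exp v := Real.exp_pos v
    nlinarith

/-- a block, central part -/
lemma block_good' {R : ℕ} (hR : 1 ≤ R) {a : ℝ} (ha : |a| ≤ 9 / 8) {z : ℂ} (hz : ‖z‖ ≤ 2 * R) :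
    (1 - Real.exp (-(2 * (R:ℝ)))) ^ 2 * Real.exp (2 * a * z.re) ≤ gf (20 * R) a R z := by
  have hR' : (1:ℝ) ≤ R := by exact_mod_cast hR
  have h1 := nk_tail (s := 1 / 8) (r := 18 * R) (by norm_num) (by norm_num) (by positivity) (20 * R) (a := a) (z := z)
    (by
      calc |a| * ‖z‖ ≤ 9 / 8 * (2 * R) := mul_le_mul ha hz (norm_nonneg _) (by norm_num)
        _ = _ := by ring)
  have h2 : (1 / 8 : ℝ) ^ (20 * R + 1) * Real.exp (18 * R) ≤ Real.exp (-(22 * (R:ℝ))) := by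
    have h3 : (1 / 8 : ℝ) ≤ Real.exp (-2) := by
      rw [Real.exp_neg, one_div]
      refine inv_anti₀ (Real.exp_pos _) ?_
      have := Real.exp_one_lt_d9
      have e : Real.exp 2 = Real.exp 1 ^ 2 := by rw [← Real.exp_nat_mul]; norm_num
      rw [e]; nlinarith [Real.exp_pos 1]
    calc (1 / 8 : ℝ) ^ (20 * R + 1) * Real.exp (18 * R) ≤ Real.exp (-2) ^ (20 * R + 1) * Real.exp (18 * R) := by gcongr
      _ = Real.exp (-(22 * (R:ℝ)) - 2) := by
          rw [← Real.exp_nat_mul, ← Real.exp_add]; congr 1; push_cast; ring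
      _ ≤ _ := Real.exp_le_exp.mpr (by linarith)
  have h4 : Real.exp (-(9 / 4 * (R:ℝ))) ≤ ‖Complex.exp (a * z)‖ := by
    rw [norm_exp_real]
    refine Real.exp_le_exp.mpr ?_
    have h5 : |a * z.re| ≤ 9 / 4 * R := by
      rw [abs_mul]
      have := Complex.abs_re_le_norm z
      calc |a| * |z.re| ≤ 9 / 8 * (2 * R) := mul_le_mul ha (this.trans hz) (abs_nonneg _) (by norm_num)
        _ = _ := by ring
    exact (abs_le.mp h5).1
  have h5 : ‖NK (20 * R) a z - Complex.exp (a * z)‖ ≤ Real.exp (-(2 * (R:ℝ))) * ‖Complex.exp (a * z)‖ := by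
    refine (h1.trans h2).trans ?_
    calc Real.exp (-(22 * (R:ℝ))) ≤ Real.exp (-(2 * (R:ℝ)) + -(9 / 4 * (R:ℝ))) := Real.exp_le_exp.mpr (by linarith)
      _ = Real.exp (-(2 * (R:ℝ))) * Real.exp (-(9 / 4 * (R:ℝ))) := Real.exp_add _ _
      _ ≤ _ := mul_le_mul_of_nonneg_left h4 (Real.exp_pos _).le
  have h6 : (1 - Real.exp (-(2 * (R:ℝ)))) * ‖Complex.exp (a * z)‖ ≤ ‖NK (20 * R) a z‖ := by
    have h7 := norm_sub_norm_le (Complex.exp (a * z)) (NK (20 * R) a z)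
    rw [norm_sub_rev] at h7
    linarith
  have h0 : 0 ≤ 1 - Real.exp (-(2 * (R:ℝ))) := by
    have : Real.exp (-(2 * (R:ℝ))) ≤ 1 := Real.exp_le_one_iff.mpr (by linarith)
    linarith
  have h8 := pow_le_pow_left₀ (mul_nonneg h0 (norm_nonneg _)) h6 2
  rw [mul_pow, norm_exp_sq] at h8
  unfold gf
  have : 0 ≤ (‖z‖ / R) ^ (2 * R) := by positivity
  linarith

/-- the product over all blocks -/
lemma prod_low' {J Rs : ℕ} (hRs : 1 ≤ Rs) {a : ℝ} (ha : |a| ≤ 9 / 8) (z : ℕ → ℂ) :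
    Real.exp (2 * a * ∑ i ∈ Gd J Rs z, (z i).re) * ∏ i ∈ Bd' J Rs z, (‖z i‖ / RR Rs i) ^ (2 * RR Rs i) ≤
      2 * ∏ i ∈ range J, gf (20 * RR Rs i) a (RR Rs i) (z i) := by
  have hRR : ∀ i, 1 ≤ RR Rs i := fun i => by unfold RR; omega
  set x : ℕ → ℝ := fun i => Real.exp (-(2 * (RR Rs i : ℝ))) with hx
  have hx0 : ∀ i, 0 ≤ x i := fun i => (Real.exp_pos _).le
  have hx1 : ∀ i, x i ≤ 1 := fun i => Real.exp_le_one_iff.mpr (by
    have : (0:ℝ) ≤ RR Rs i := Nat.cast_nonneg _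
    linarith)
  have hs : ∑ i ∈ Gd J Rs z, x i ≤ 1 / 4 := by
    have h1 : ∀ i, x i ≤ 1 / 8 * (1 / 2) ^ i := by
      intro i
      have h2 : (4:ℝ) + i ≤ 2 * (RR Rs i : ℝ) := by
        unfold RR
        push_cast
        have : (1:ℝ) ≤ Rs := by exact_mod_cast hRs
        have : (0:ℝ) ≤ i := Nat.cast_nonneg _
        linarith
      have h3 : Real.exp (-1) ≤ 1 / 2 := by
        rw [Real.exp_neg, inv_le_comm₀ (Real.exp_pos _) (by norm_num)]
        have := Real.exp_one_gt_d9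
        linarith
      calc x i ≤ Real.exp (-(4 + (i:ℝ))) := Real.exp_le_exp.mpr (by linarith)
        _ = Real.exp (-1) ^ (4 + i) := by rw [← Real.exp_nat_mul]; congr 1; push_cast; ring
        _ ≤ (1 / 2) ^ (4 + i) := pow_le_pow_left₀ (Real.exp_pos _).le h3 _
        _ = 1 / 16 * (1 / 2) ^ i := by rw [pow_add]; norm_num
        _ ≤ _ := by
          have : (0:ℝ) < (1 / 2) ^ i := by positivity
          linarith
    calc ∑ i ∈ Gd J Rs z, x i ≤ ∑ i ∈ range J, x i := by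
          rw [← sum_gd (Rs := Rs) (z := z)]
          have : 0 ≤ ∑ i ∈ Bd' J Rs z, x i := sum_nonneg fun i _ => hx0 i
          linarith
      _ ≤ ∑ i ∈ range J, 1 / 8 * (1 / 2 : ℝ) ^ i := sum_le_sum fun i _ => h1 i
      _ = 1 / 8 * ∑ i ∈ range J, (1 / 2 : ℝ) ^ i := by rw [mul_sum]
      _ ≤ 1 / 8 * 2 := by
          refine mul_le_mul_of_nonneg_left ?_ (by norm_num)
          have h5 := (summable_geometric_of_lt_one (show (0:ℝ) ≤ 1 / 2 by norm_num) (by norm_num)).sum_le_tsum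
            (range J) (fun i _ => by positivity)
          rw [tsum_geometric_of_lt_one (by norm_num) (by norm_num)] at h5
          norm_num at h5 ⊢
          exact h5
      _ = 1 / 4 := by norm_num
  have hpr := one_sub_prod (Gd J Rs z) (fun i _ => hx0 i) (fun i _ => hx1 i)
  have hpr2 : (1:ℝ) / 2 ≤ ∏ i ∈ Gd J Rs z, (1 - x i) ^ 2 := by
    rw [prod_pow]
    nlinarith
  have e1 : Real.exp (2 * a * ∑ i ∈ Gd J Rs z, (z i).re) = ∏ i ∈ Gd J Rs z, Real.exp (2 * a * (z i).re) := by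
    rw [← Real.exp_sum, mul_sum]
  have hg : (∏ i ∈ Gd J Rs z, (1 - x i) ^ 2) * ∏ i ∈ Gd J Rs z, Real.exp (2 * a * (z i).re) ≤
      ∏ i ∈ Gd J Rs z, gf (20 * RR Rs i) a (RR Rs i) (z i) := by
    rw [← prod_mul_distrib]
    refine prod_le_prod (fun i _ => by positivity) fun i hi => ?_
    rw [mem_Gd] at hi
    exact block_good' (hRR i) ha hi.2
  have hb : ∏ i ∈ Bd' J Rs z, (‖z i‖ / RR Rs i) ^ (2 * RR Rs i) ≤
      ∏ i ∈ Bd' J Rs z, gf (20 * RR Rs i) a (RR Rs i) (z i) := by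
    refine prod_le_prod (fun i _ => by positivity) fun i hi => ?_
    unfold gf
    have : 0 ≤ ‖NK (20 * RR Rs i) a (z i)‖ ^ 2 := by positivity
    linarith
  rw [← prod_gd (Rs := Rs) (z := z) (f := fun i => gf (20 * RR Rs i) a (RR Rs i) (z i)), e1]
  set E := ∏ i ∈ Gd J Rs z, Real.exp (2 * a * (z i).re) with hE
  have hE0 : 0 ≤ E := prod_nonneg fun i _ => (Real.exp_pos _).le
  have hB0 : 0 ≤ ∏ i ∈ Bd' J Rs z, (‖z i‖ / RR Rs i) ^ (2 * RR Rs i) := prod_nonneg fun i _ => by positivity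
  have hG0 : 0 ≤ ∏ i ∈ Gd J Rs z, gf (20 * RR Rs i) a (RR Rs i) (z i) := prod_nonneg fun i _ => gf_nonneg _ _ _ _
  have h7 : E ≤ 2 * ∏ i ∈ Gd J Rs z, gf (20 * RR Rs i) a (RR Rs i) (z i) := by nlinarith
  calc E * ∏ i ∈ Bd' J Rs z, (‖z i‖ / RR Rs i) ^ (2 * RR Rs i) ≤
        (2 * ∏ i ∈ Gd J Rs z, gf (20 * RR Rs i) a (RR Rs i) (z i)) *
        ∏ i ∈ Bd' J Rs z, gf (20 * RR Rs i) a (RR Rs i) (z i) := mul_le_mul h7 hb hB0 (by positivity)
    _ = _ := by ring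

/-- the sum of the errors of the blocks -/
lemma sum_half (J Rs : ℕ) (hRs : 2 ≤ Rs) : ∑ i ∈ range J, Real.exp (-(RR Rs i : ℝ) / 2) ≤ 1 / 4 := by
  have h1 : ∀ i, Real.exp (-(RR Rs i : ℝ) / 2) ≤ 0.1354 * 0.37 ^ i := by
    intro i
    have h2 : (2:ℝ) + i ≤ (RR Rs i : ℝ) / 2 := by
      unfold RR
      push_cast
      have : (2:ℝ) ≤ Rs := by exact_mod_cast hRs
      linarith
    have h3 : Real.exp (-1) ≤ 0.3679 := by
      have := Real.exp_neg_one_lt_d9
      linarith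
    calc Real.exp (-(RR Rs i : ℝ) / 2) ≤ Real.exp (-(2 + (i:ℝ))) := Real.exp_le_exp.mpr (by linarith)
      _ = Real.exp (-1) ^ (2 + i) := by rw [← Real.exp_nat_mul]; congr 1; push_cast; ring
      _ ≤ 0.3679 ^ (2 + i) := pow_le_pow_left₀ (Real.exp_pos _).le h3 _
      _ = 0.3679 ^ 2 * 0.3679 ^ i := by rw [pow_add]
      _ ≤ 0.1354 * 0.37 ^ i := by gcongr <;> norm_num
  calc ∑ i ∈ range J, Real.exp (-(RR Rs i : ℝ) / 2) ≤ ∑ i ∈ range J, 0.1354 * (0.37:ℝ) ^ i :=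
        sum_le_sum fun i _ => h1 i
    _ = 0.1354 * ∑ i ∈ range J, (0.37:ℝ) ^ i := by rw [mul_sum]
    _ ≤ 0.1354 * (1 - 0.37)⁻¹ := by
        refine mul_le_mul_of_nonneg_left ?_ (by norm_num)
        have h5 := (summable_geometric_of_lt_one (show (0:ℝ) ≤ 0.37 by norm_num) (by norm_num)).sum_le_tsum
          (range J) (fun i _ => by positivity)
        rw [tsum_geometric_of_lt_one (by norm_num) (by norm_num)] at h5
        exact h5
    _ ≤ 1 / 4 := by norm_num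

/-- the multiplier approximates the power, with a linear error -/
theorem pt_lip {a : ℝ} (ha : |a| ≤ 1 / 16) {Rs : ℕ} (hRs : 2 ≤ Rs) (J : ℕ) (z : ℕ → ℂ) {x : ℝ} (hx : 0 ≤ x) :
    |x ^ (2 + 2 * a) - x ^ 2 * ∏ i ∈ range J, ‖NK (RR Rs i) a (z i)‖ ^ 2| ≤
      16 * |a| * (∏ i ∈ range J, gf (20 * RR Rs i) (1 + a) (RR Rs i) (z i) +
        x ^ 4 * ∏ i ∈ range J, gf (20 * RR Rs i) (-1 + a) (RR Rs i) (z i)) := by
  obtain ⟨ha1, ha2⟩ := abs_le.mp ha
  have ha0 := abs_nonneg a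
  set M1 := ∏ i ∈ range J, gf (20 * RR Rs i) (1 + a) (RR Rs i) (z i) with hM1
  set M2 := ∏ i ∈ range J, gf (20 * RR Rs i) (-1 + a) (RR Rs i) (z i) with hM2
  have hM10 : 0 ≤ M1 := prod_nonneg fun i _ => gf_nonneg _ _ _ _
  have hM20 : 0 ≤ M2 := prod_nonneg fun i _ => gf_nonneg _ _ _ _
  rcases hx.eq_or_lt with hx | hx
  · subst hx
    rw [Real.zero_rpow (by linarith)]
    simp only [ne_eq, OfNat.ofNat_ne_zero, not_false_eq_true, zero_pow, zero_mul, sub_zero, abs_zero, add_zero]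
    positivity
  set G := ∑ i ∈ Gd J Rs z, (z i).re with hG
  set W := ∏ i ∈ Bd' J Rs z, (‖z i‖ / RR Rs i) ^ (2 * RR Rs i) with hW
  set A := ∏ i ∈ Gd J Rs z, ‖NK (RR Rs i) a (z i)‖ ^ 2 * Real.exp (-(2 * a * (z i).re)) with hA
  set B := ∏ i ∈ Bd' J Rs z, ‖NK (RR Rs i) a (z i)‖ ^ 2 with hB
  have hRR : ∀ i, 4 ≤ RR Rs i := fun i => by unfold RR; omega
  have hA1 : |A - 1| ≤ 2 * |a| := by
    have h1 := prod_near (Gd J Rs z) (x := fun i => ‖NK (RR Rs i) a (z i)‖ ^ 2 * Real.exp (-(2 * a * (z i).re)))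
      (θ := fun i => 3 * |a| * Real.exp (-(RR Rs i : ℝ) / 2)) fun i hi => by
        rw [mem_Gd] at hi
        exact good_one ha hi.2
    have h2 : ∑ i ∈ Gd J Rs z, 3 * |a| * Real.exp (-(RR Rs i : ℝ) / 2) ≤ |a| := by
      rw [← mul_sum]
      have h3 : ∑ i ∈ Gd J Rs z, Real.exp (-(RR Rs i : ℝ) / 2) ≤ 1 / 4 := by
        refine le_trans ?_ (sum_half J Rs hRs)
        rw [← sum_gd (Rs := Rs) (z := z)]
        have : 0 ≤ ∑ i ∈ Bd' J Rs z, Real.exp (-(RR Rs i : ℝ) / 2) := sum_nonneg fun i _ => (Real.exp_pos _).le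
        linarith
      nlinarith
    refine h1.trans ?_
    have h4 : Real.exp (∑ i ∈ Gd J Rs z, 3 * |a| * Real.exp (-(RR Rs i : ℝ) / 2)) ≤ Real.exp |a| :=
      Real.exp_le_exp.mpr h2
    have h5 := Real.exp_bound' (x := |a|) ha0 (by linarith) (n := 2) (by norm_num)
    norm_num [Finset.sum_range_succ, Nat.factorial] at h5
    have h6 : a ^ 2 ≤ 1 / 16 * |a| := by rw [← sq_abs]; nlinarith
    linarith
  obtain ⟨hB1, hW1'⟩ := prod_lin (Bd' J Rs z) (x := fun i => ‖NK (RR Rs i) a (z i)‖ ^ 2)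
    (w := fun i => (‖z i‖ / RR Rs i) ^ (2 * RR Rs i)) (a := |a|) (by linarith) (fun i hi => by
      rw [mem_Bd'] at hi
      exact bad_one ha (hRR i) hi.2) (fun i hi => by
      rw [mem_Bd'] at hi
      have h1 : (4:ℝ) ≤ RR Rs i := by exact_mod_cast hRR i
      refine one_le_pow₀ ?_
      rw [le_div_iff₀ (by linarith)]
      linarith [hi.2])
  rw [← hB, ← hW] at hB1
  rw [← hW] at hW1'
  have hprod : ∏ i ∈ range J, ‖NK (RR Rs i) a (z i)‖ ^ 2 = Real.exp (2 * a * G) * (A * B) := by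
    rw [← prod_gd (Rs := Rs) (z := z) (f := fun i => ‖NK (RR Rs i) a (z i)‖ ^ 2), ← hB, hA, prod_mul_distrib,
      ← Real.exp_sum, sum_neg_distrib, ← mul_sum, ← hG]
    have : Real.exp (2 * a * G) * Real.exp (-(2 * a * G)) = 1 := by rw [← Real.exp_add]; simp
    calc _ = (∏ i ∈ Gd J Rs z, ‖NK (RR Rs i) a (z i)‖ ^ 2) * B * (Real.exp (2 * a * G) * Real.exp (-(2 * a * G))) := by
          rw [this, mul_one]
      _ = _ := by ring
  set u := x * Real.exp (-G) with hu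
  have hu0 : 0 < u := by positivity
  have hxu : x = u * Real.exp G := by
    rw [hu, mul_assoc, ← Real.exp_add]; simp
  have hxp : x ^ (2 + 2 * a) = u ^ 2 * u ^ (2 * a) * Real.exp ((2 + 2 * a) * G) := by
    rw [hxu, Real.mul_rpow hu0.le (Real.exp_pos _).le, ← Real.exp_mul, Real.rpow_add hu0, ← Real.rpow_natCast u 2]
    congr 1
    · congr 1; ring
  have hx2 : x ^ 2 * (Real.exp (2 * a * G) * (A * B)) = u ^ 2 * (A * B) * Real.exp ((2 + 2 * a) * G) := by
    have : Real.exp ((2 + 2 * a) * G) = Real.exp G ^ 2 * Real.exp (2 * a * G) := by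
      rw [← Real.exp_nat_mul, ← Real.exp_add]; congr 1; push_cast; ring
    rw [this, hxu, mul_pow]; ring
  have hAB : |A * B - 1| ≤ 4 * |a| * W := by
    have e : A * B - 1 = (A - 1) * (B - 1) + (A - 1) + (B - 1) := by ring
    rw [e]
    refine (abs_add_three _ _ _).trans ?_
    rw [abs_mul]
    have h1 : |A - 1| * |B - 1| ≤ (2 * |a|) * (|a| * (W - 1)) := mul_le_mul hA1 hB1 (abs_nonneg _) (by positivity)
    have h2 : (2 * |a|) * (|a| * (W - 1)) ≤ |a| * (W - 1) := by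
      have : 0 ≤ |a| * (W - 1) := mul_nonneg ha0 (by linarith)
      nlinarith
    nlinarith
  have hlog : |u ^ (2 * a) - 1| ≤ 2 * |a| * (|Real.log u| + u ^ (2 * a) * |Real.log u|) := by
    have h1 := abs_exp_sub (Real.log u * (2 * a))
    rw [← Real.rpow_def_of_pos hu0, abs_mul, abs_mul, abs_two] at h1
    linarith
  have hu4 : 0 < u ^ 4 := by positivity
  have k1 : u ^ 2 * |Real.log u| ≤ 1 + u ^ 4 := by
    have := log_pow_le (β := 2) (by norm_num) (by norm_num) hu0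
    have e : u ^ (2:ℝ) = u ^ 2 := by rw [← Real.rpow_natCast]; norm_num
    rwa [e] at this
  have k2 : u ^ 2 * (u ^ (2 * a) * |Real.log u|) ≤ 1 + u ^ 4 := by
    have := log_pow_le (β := 2 + 2 * a) (by linarith) (by linarith) hu0
    rw [Real.rpow_add hu0] at this
    have e : u ^ (2:ℝ) = u ^ 2 := by rw [← Real.rpow_natCast]; norm_num
    rw [e] at this
    linarith
  have k3 : u ^ 2 ≤ 1 + u ^ 4 := by nlinarith [sq_nonneg (u ^ 2 - 1), sq_nonneg u]
  have hmain : |u ^ 2 * u ^ (2 * a) - u ^ 2 * (A * B)| ≤ 8 * |a| * W * (1 + u ^ 4) := by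
    have e : u ^ 2 * u ^ (2 * a) - u ^ 2 * (A * B) = u ^ 2 * (u ^ (2 * a) - 1) - u ^ 2 * (A * B - 1) := by ring
    rw [e]
    refine (abs_sub _ _).trans ?_
    rw [abs_mul, abs_mul, abs_of_pos (by positivity : 0 < u ^ 2)]
    have h1 : u ^ 2 * |u ^ (2 * a) - 1| ≤ 2 * |a| * ((1 + u ^ 4) + (1 + u ^ 4)) := by
      calc u ^ 2 * |u ^ (2 * a) - 1| ≤ u ^ 2 * (2 * |a| * (|Real.log u| + u ^ (2 * a) * |Real.log u|)) := by gcongr
        _ = 2 * |a| * (u ^ 2 * |Real.log u| + u ^ 2 * (u ^ (2 * a) * |Real.log u|)) := by ring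
        _ ≤ _ := by gcongr
    have h2 : u ^ 2 * |A * B - 1| ≤ (1 + u ^ 4) * (4 * |a| * W) := by gcongr
    have h3 : 0 ≤ |a| * (1 + u ^ 4) := by positivity
    nlinarith
  have p1 := prod_low' (J := J) (Rs := Rs) (by omega) (a := 1 + a) (by rw [abs_le]; constructor <;> linarith) z
  have p2 := prod_low' (J := J) (Rs := Rs) (by omega) (a := -1 + a) (by rw [abs_le]; constructor <;> linarith) z
  rw [← hG, ← hW, ← hM1] at p1
  rw [← hG, ← hW, ← hM2] at p2
  rw [hprod, hx2, hxp, ← sub_mul, abs_mul, abs_of_pos (Real.exp_pos _)]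
  calc |u ^ 2 * u ^ (2 * a) - u ^ 2 * (A * B)| * Real.exp ((2 + 2 * a) * G) ≤
        8 * |a| * W * (1 + u ^ 4) * Real.exp ((2 + 2 * a) * G) := mul_le_mul_of_nonneg_right hmain (Real.exp_pos _).le
    _ = 8 * |a| * (Real.exp (2 * (1 + a) * G) * W + x ^ 4 * (Real.exp (2 * (-1 + a) * G) * W)) := by
        have e1 : Real.exp ((2 + 2 * a) * G) = Real.exp (2 * (1 + a) * G) := by congr 1; ring
        have e2 : x ^ 4 * Real.exp (2 * (-1 + a) * G) = u ^ 4 * Real.exp (2 * (1 + a) * G) := by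
          rw [hxu, mul_pow, ← Real.exp_nat_mul, mul_assoc, ← Real.exp_add]
          congr 2
          push_cast; ring
        calc _ = 8 * |a| * (Real.exp ((2 + 2 * a) * G) * W + (u ^ 4 * Real.exp ((2 + 2 * a) * G)) * W) := by ring
          _ = 8 * |a| * (Real.exp (2 * (1 + a) * G) * W + (x ^ 4 * Real.exp (2 * (-1 + a) * G)) * W) := by
              rw [e1, e2]
          _ = _ := by ring
    _ ≤ 8 * |a| * (2 * M1 + x ^ 4 * (2 * M2)) := by gcongr
    _ = _ := by ring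

end Pool.Agent.H998_LP
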