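import Pool.Agent.H998_LP.Law
import Pool.Agent.TH806.WinM

set_option autoImplicit false

/-! The windows with a linear error. -/

namespace Pool.Agent.H998_LP

open Finset Filter MeasureTheory MonoidAlgebra
open Pool.Agent.W184.NZ
open Pool.Agent.H306R2.SM (om cl Yf)
open Pool.Agent.H262R4.TM (Rng Ck)
open Pool.Agent.TH806 (gq glf GQ GQ_Bd GQ_l1 l0 BL gq_eq two_avg yf_bound G0 X4 Xz Xz_nonneg Xz_cont Xz_pow_cont
  iX igp iwgq ewz om_nn om_poly_int gp_cont gq_cont)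

/-- the normalised difference -/
noncomputable def FX (a V t : ℝ) : ℝ := Real.exp (-((a ^ 2 + 2 * a) * V)) * Xz t ^ (2 + 2 * a) - Xz t ^ 2

lemma gq_l0 (J : ℕ) (a : ℝ) (Rs : ℕ) (I : ℕ → Finset ℕ) (t : ℝ) : gq l0 J a (RR Rs) I t =
    ∏ i ∈ range J, ‖NK (RR Rs i) a (PI (I i) (1 / 2 + t * Complex.I))‖ ^ 2 := by
  unfold gq glf l0; simp

lemma exp_lin {B s : ℝ} (hB : 0 ≤ B) (hs : 0 ≤ s) (hs1 : s ≤ 1) : Real.exp (B * s) - 1 ≤ s * (B * Real.exp B) := by
  have h6 := Real.add_one_le_exp (-(B * s))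
  have h7 : Real.exp (B * s) * Real.exp (-(B * s)) = 1 := by rw [← Real.exp_add]; simp
  have h8 : 0 < Real.exp (B * s) := Real.exp_pos _
  have h9 : Real.exp (B * s) ≤ Real.exp B := Real.exp_le_exp.mpr (by nlinarith)
  have h10 : Real.exp (B * s) - 1 ≤ B * s * Real.exp (B * s) := by nlinarith
  calc _ ≤ B * s * Real.exp (B * s) := h10
    _ ≤ B * s * Real.exp B := by gcongr
    _ = _ := by ring

theorem main_win {c : ℝ} (hc : 0 ≤ c) {Rs : ℕ} (hRs : 2 ≤ Rs) : ∃ η1 : ℝ, 0 < η1 ∧ η1 ≤ 1 ∧ ∃ C : ℝ, 0 < C ∧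
    ∀ᶠ x : ℝ in atTop, ∀ k : ℕ, Rng x k → ∀ (y a : ℝ) (J : ℕ), BL c y J →
    320 * ((Rs:ℝ) + 1) * Real.log y ≤ η1 * Real.log x → |a| ≤ 1 / 16 → |a| * Kc c ≤ 1 / 4 →
    |∫ t in Set.Ioi (0:ℝ), wz k x t * (Real.exp (-((a ^ 2 + 2 * a) * ∑ i ∈ range J, vI (II y i))) *
      gq l0 J a (RR Rs) (II y) t - 1)| ≤ C * |a| * Real.log x + x ^ (-η1) := by
  obtain ⟨η2, hη2, h⟩ := two_avg
  set η1 := min (η2 / 2) 1 with hη1
  have hη1p : 0 < η1 := lt_min (by positivity) one_pos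
  have hη12 : η1 ≤ η2 / 2 := min_le_left _ _
  have hB1 := B1_pos hc
  have hB2 := B2_pos hc
  refine ⟨η1, hη1p, min_le_right _ _, 2 * (B1 c * Real.exp (B1 c)) + 16 * ((Rs:ℝ) + 1) * B2 c * Real.exp (B1 c),
    by positivity, ?_⟩
  have hsm : ∀ᶠ x : ℝ in atTop, 2 * (Real.exp c + 1) * Real.log x ≤ x ^ (19 / 40 * η2) := by
    have h1 := (isLittleO_log_rpow_atTop (r := 19 / 40 * η2) (by positivity)).bound
      (show 0 < 1 / (2 * (Real.exp c + 1)) by positivity)
    filter_upwards [h1, eventually_ge_atTop (1:ℝ)] with x hx hx1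
    rw [Real.norm_of_nonneg (Real.log_nonneg hx1), Real.norm_of_nonneg (by positivity)] at hx
    rw [div_mul_eq_mul_div, one_mul, le_div_iff₀ (by positivity)] at hx
    linarith
  filter_upwards [h, hsm, eventually_ge_atTop (1:ℝ), Real.tendsto_log_atTop.eventually_ge_atTop 2] with
    x hx hsm hx1 hL2 k hk y a J hBL hy ha hac
  have hx0 : 0 < x := by linarith
  have hy144 := hBL.y1
  have hy1 : 1 ≤ y := by linarith
  have hly : 0 ≤ Real.log y := Real.log_nonneg hy1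
  have hRs1 : (2:ℝ) ≤ Rs := by exact_mod_cast hRs
  set L := Real.log x with hL
  set V := ∑ i ∈ range J, vI (II y i) with hV
  set E' := Real.exp (-((a ^ 2 + 2 * a) * V)) with hE'
  have hE'0 : 0 < E' := Real.exp_pos _
  have ha0 := abs_nonneg a
  have hη1L : η1 * L ≤ L := by
    have : η1 ≤ 1 := min_le_right _ _
    nlinarith
  have hyL : Real.log y ≤ L := by nlinarith
  have hk1 : 1 ≤ k := by
    have := hk.1
    have h2 : (0:ℝ) < k := lt_of_lt_of_le (by rw [← hL]; positivity) this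
    exact_mod_cast h2
  have hk0 : (0:ℝ) < k := by exact_mod_cast hk1
  have hδ : 0 < (k:ℝ) / x := by positivity
  set G := GQ l0 J a (RR Rs) (II y) with hG
  have g1 : Bd (x ^ ((1:ℝ) / 4)) G := by
    refine (GQ_Bd (Rs := Rs) hy1 hBL.rg a).mono ?_
    rw [Real.rpow_def_of_pos hx0, ← hL]
    apply Real.exp_le_exp.mpr
    nlinarith
  have hl0a : ∀ i, (0:ℝ) ≤ l0 i := fun i => le_rfl
  have hl0b : ∀ i, l0 i ≤ Real.exp (RR Rs i) := fun i => (Real.exp_pos _).le
  have g2 : l1 G ≤ x ^ (η2 / 40) := by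
    refine (GQ_l1 hy1 hBL.rg (by omega) (by linarith) hl0a hl0b).trans ?_
    rw [Real.rpow_def_of_pos hx0, ← hL]
    apply Real.exp_le_exp.mpr
    nlinarith
  have h1 := hx k hk G g1
  have hone : Bd (x ^ ((1:ℝ) / 4)) (1 : DA) := by
    exact Bd.one.mono (Real.one_le_rpow hx1 (by norm_num))
  have h0 := hx k hk 1 hone
  have e10 : ∀ t, (ev t (1:DA)).re = 1 := fun t => by rw [map_one]; simp
  simp_rw [e10, mul_one] at h0
  have e11 : lam wl (1:DA) = 0 := by
    rw [MonoidAlgebra.one_def, lam_single]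
    unfold wl
    simp
  rw [lam_one goodW1, e11, l1_one, mul_one, sub_zero, mul_one] at h0
  have e1 : ∀ t, (ev t G).re = gq l0 J a (RR Rs) (II y) t := fun t => (gq_eq hBL l0 a Rs t).symm
  simp_rw [e1] at h1
  have hP := GQ2 goodW1 hc hBL.rg (RR_ge Rs) ha hac
  have hW := GQ_log2' (Rs := Rs) hc hy1 hBL.rg ha hac
  rw [← hG] at hP hW
  set P := lam w1 G with hPd
  set W := lam wl G with hWd
  set Y := Real.log (Yf k x) + Ck k with hY
  have hYL : |Y| ≤ 2 * L := by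
    have h2 := yf_bound hk1 hx0
    have h3 := abs_sub_abs_le_abs_sub Y L
    rw [abs_of_nonneg (by linarith : 0 ≤ L)] at h3
    rw [← hL] at h2
    linarith
  -- the ratio
  have hEP : |E' * P - 1| ≤ |a| * (B1 c * Real.exp (B1 c)) ∧ E' * P ≤ Real.exp (B1 c) := by
    have e2 : E' * Real.exp ((2 * 1 * a + a ^ 2) * V + B1 c * |a|) = Real.exp (B1 c * |a|) := by
      rw [hE', ← Real.exp_add]; congr 1; ring
    have e3 : E' * Real.exp ((2 * 1 * a + a ^ 2) * V - B1 c * |a|) = Real.exp (-(B1 c * |a|)) := by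
      rw [hE', ← Real.exp_add]; congr 1; ring
    have h2 := mul_le_mul_of_nonneg_left hP.2 hE'0.le
    have h3 := mul_le_mul_of_nonneg_left hP.1 hE'0.le
    rw [e2] at h2
    rw [e3] at h3
    have h4 := exp_lin hB1.le ha0 (by linarith : |a| ≤ 1)
    have h5 := Real.add_one_le_exp (-(B1 c * |a|))
    have h6 := Real.add_one_le_exp (B1 c * |a|)
    constructor
    · rw [abs_le]; constructor
      · have : B1 c * |a| ≤ |a| * (B1 c * Real.exp (B1 c)) := by
          have : 1 ≤ Real.exp (B1 c) := Real.one_le_exp hB1.le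
          nlinarith [mul_nonneg hB1.le ha0]
        linarith
      · linarith
    · refine h2.trans (Real.exp_le_exp.mpr ?_)
      nlinarith
  have hP0 : 0 ≤ P := le_trans (Real.exp_pos _).le hP.1
  have hEW : |E' * W| ≤ 16 * ((Rs:ℝ) + 1) * B2 c * Real.exp (B1 c) * |a| * L := by
    rw [abs_mul, abs_of_pos hE'0]
    calc E' * |W| ≤ E' * ((16 * ((Rs:ℝ) + 1) * (B2 c * |a|) * Real.log y) * P) :=
          mul_le_mul_of_nonneg_left hW hE'0.le
      _ = (16 * ((Rs:ℝ) + 1) * (B2 c * |a|) * Real.log y) * (E' * P) := by ring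
      _ ≤ (16 * ((Rs:ℝ) + 1) * (B2 c * |a|) * L) * Real.exp (B1 c) := by
          have h7 := hEP.2
          have h8 : 0 ≤ E' * P := by positivity
          gcongr
      _ = _ := by ring
  -- the integral
  have i1 : IntegrableOn (fun t => wz k x t * gq l0 J a (RR Rs) (II y) t) (Set.Ioi 0) := iwgq hBL hδ l0 a
  have i0 : IntegrableOn (fun t => wz k x t) (Set.Ioi 0) := by
    have := wz_int k hδ (f := fun _ => (1:ℝ)) (C := 1) continuous_const (fun _ => by simp)
    simpa using this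
  have eI : ∫ t in Set.Ioi (0:ℝ), wz k x t * (E' * gq l0 J a (RR Rs) (II y) t - 1) =
      E' * (∫ t in Set.Ioi (0:ℝ), wz k x t * gq l0 J a (RR Rs) (II y) t) - ∫ t in Set.Ioi (0:ℝ), wz k x t := by
    rw [← integral_const_mul, ← integral_sub (i1.const_mul _) i0]
    refine integral_congr_ae (Eventually.of_forall fun t => ?_)
    simp only
    ring
  rw [eI]
  set Z1 := ∫ t in Set.Ioi (0:ℝ), wz k x t * gq l0 J a (RR Rs) (II y) t
  set Z0 := ∫ t in Set.Ioi (0:ℝ), wz k x t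
  have e4 : E' * Z1 - Z0 = Y * (E' * P - 1) - E' * W + (E' * (Z1 - (Y * P - W)) - (Z0 - Y)) := by ring
  rw [e4]
  have hE'L : E' ≤ Real.exp c * L := by
    have h2 := hBL.E_ge (α := a) (by linarith) (by linarith : 1 ≤ L) hyL
    have h3 : E' * Real.exp ((a ^ 2 + 2 * a) * V) = 1 := by rw [hE', ← Real.exp_add]; simp
    have h4 := mul_le_mul_of_nonneg_left h2 hE'0.le
    rw [← hV, h3] at h4
    have h5 : Real.exp c * Real.exp (-c) = 1 := by rw [← Real.exp_add]; simp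
    have hL0 : 0 < L := by linarith
    calc E' = (E' * (Real.exp (-c) / L)) * (Real.exp c * L) := by
          field_simp
          linarith
      _ ≤ 1 * (Real.exp c * L) := mul_le_mul_of_nonneg_right h4 (by positivity)
      _ = _ := one_mul _
  have herr : |E' * (Z1 - (Y * P - W)) - (Z0 - Y)| ≤ x ^ (-η1) := by
    refine (abs_sub _ _).trans ?_
    rw [abs_mul, abs_of_pos hE'0]
    have h2 : E' * |Z1 - (Y * P - W)| ≤ Real.exp c * L * (2 * x ^ (-η2) * x ^ (η2 / 40)) := by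
      refine mul_le_mul hE'L (h1.trans ?_) (abs_nonneg _) (by positivity)
      gcongr
    have h3 : 2 * x ^ (-η2) ≤ L * (2 * x ^ (-η2) * x ^ (η2 / 40)) := by
      have h5 : 1 ≤ x ^ (η2 / 40) := Real.one_le_rpow hx1 (by positivity)
      have h6 : 0 ≤ 2 * x ^ (-η2) := by positivity
      calc 2 * x ^ (-η2) ≤ 2 * x ^ (-η2) * x ^ (η2 / 40) := le_mul_of_one_le_right h6 h5
        _ = 1 * (2 * x ^ (-η2) * x ^ (η2 / 40)) := (one_mul _).symm
        _ ≤ _ := by gcongr; linarith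
    have h4 : (Real.exp c + 1) * L * (2 * x ^ (-η2) * x ^ (η2 / 40)) ≤ x ^ (-η1) := by
      calc (Real.exp c + 1) * L * (2 * x ^ (-η2) * x ^ (η2 / 40)) =
          (2 * (Real.exp c + 1) * L) * (x ^ (-η2) * x ^ (η2 / 40)) := by ring
        _ ≤ x ^ (19 / 40 * η2) * (x ^ (-η2) * x ^ (η2 / 40)) := by gcongr
        _ = x ^ (-(η2 / 2)) := by
            rw [← Real.rpow_add hx0, ← Real.rpow_add hx0]; congr 1; ring
        _ ≤ x ^ (-η1) := Real.rpow_le_rpow_of_exponent_le hx1 (by linarith)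
    calc _ ≤ Real.exp c * L * (2 * x ^ (-η2) * x ^ (η2 / 40)) + L * (2 * x ^ (-η2) * x ^ (η2 / 40)) := by
          linarith
      _ = (Real.exp c + 1) * L * (2 * x ^ (-η2) * x ^ (η2 / 40)) := by ring
      _ ≤ _ := h4
  have hmain : |Y * (E' * P - 1)| ≤ 2 * L * (|a| * (B1 c * Real.exp (B1 c))) := by
    rw [abs_mul]
    exact mul_le_mul hYL hEP.1 (abs_nonneg _) (by linarith)
  calc _ ≤ |Y * (E' * P - 1) - E' * W| + |E' * (Z1 - (Y * P - W)) - (Z0 - Y)| := abs_add_le _ _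
    _ ≤ (|Y * (E' * P - 1)| + |E' * W|) + x ^ (-η1) := add_le_add (abs_sub _ _) herr
    _ ≤ _ := by
        have e5 : (2 * (B1 c * Real.exp (B1 c)) + 16 * ((Rs:ℝ) + 1) * B2 c * Real.exp (B1 c)) * |a| * L =
          2 * L * (|a| * (B1 c * Real.exp (B1 c))) + 16 * ((Rs:ℝ) + 1) * B2 c * Real.exp (B1 c) * |a| * L := by ring
        rw [e5]
        linarith

theorem win_one {c : ℝ} (hc : 0 ≤ c) {Rs : ℕ} (hRs : 2 ≤ Rs) : ∃ η1 : ℝ, 0 < η1 ∧ η1 ≤ 1 ∧ ∀ A : ℝ, ∃ C : ℝ, 0 < C ∧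
    ∀ᶠ x : ℝ in atTop, ∀ k : ℕ, Rng x k → ∀ (y a : ℝ) (J : ℕ), BL c y J →
    320 * ((Rs:ℝ) + 1) * Real.log y ≤ η1 * Real.log x → Real.log x ≤ A * Real.log y →
    |a| ≤ 1 / 16 → |a| * Kc c ≤ 1 / 4 →
    |∫ t in Set.Ioi (0:ℝ), om k (k / x) t * FX a (∑ i ∈ range J, vI (II y i)) t| ≤
      C * |a| * Real.log x + x ^ (-η1) := by
  obtain ⟨η2, hη2, hη21, C2, hC2, hm⟩ := main_win hc hRs
  obtain ⟨η3, hη3, hη38, hX4⟩ := X4
  refine ⟨min η2 η3, lt_min hη2 hη3, (min_le_left _ _).trans hη21, fun A => ?_⟩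
  obtain ⟨C4, hC4, hX4⟩ := hX4 c A
  obtain ⟨C0, hC0, hG0⟩ := G0 c
  have hX4 := hX4 Rs (by omega)
  have hG0 := hG0 Rs (by omega)
  refine ⟨16 * (C0 * Real.exp c + C4) + C2, by positivity, ?_⟩
  filter_upwards [hm, hX4, hG0, eventually_ge_atTop (1:ℝ), Real.tendsto_log_atTop.eventually_ge_atTop 2] with
    x hm hX4 hG0 hx1 hL2 k hk y a J hBL hy hyA ha hac
  obtain ⟨ha1, ha2⟩ := abs_le.mp ha
  have hx0 : 0 < x := by linarith
  have hy144 := hBL.y1
  have hy1 : 1 ≤ y := by linarith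
  have hly : 0 ≤ Real.log y := Real.log_nonneg hy1
  set L := Real.log x with hL
  have hL0 : 0 ≤ L := by linarith
  have hyg : ∀ q : ℝ, min η2 η3 ≤ q → 320 * ((Rs:ℝ) + 1) * Real.log y ≤ q * L := fun q hq =>
    hy.trans (mul_le_mul_of_nonneg_right hq hL0)
  have hm := hm k hk y a J hBL (hyg _ (min_le_left _ _)) ha hac
  obtain ⟨i4, q4⟩ := hX4 k hk y a J hBL (hyg _ (min_le_right _ _)) hyA (by linarith)
  have q5 := hG0 k hk y (1 + a) J hBL (hyg _ ((min_le_right _ _).trans hη38))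
    (by rw [abs_le]; constructor <;> linarith)
  set V := ∑ i ∈ range J, vI (II y i) with hV
  set E' := Real.exp (-((a ^ 2 + 2 * a) * V)) with hE'
  have hE'0 : 0 < E' := Real.exp_pos _
  have ha0 := abs_nonneg a
  have hk1 : 1 ≤ k := by
    have := hk.1
    have h2 : (0:ℝ) < k := lt_of_lt_of_le (by rw [← hL]; positivity) this
    exact_mod_cast h2
  have hk0 : (0:ℝ) < k := by exact_mod_cast hk1
  have hδ : 0 < (k:ℝ) / x := by positivity
  have hom : ∀ t ∈ Set.Ioi (0:ℝ), 0 ≤ om k (k / x) t := fun t ht => om_nn k hδ (le_of_lt ht)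
  have iX2 : IntegrableOn (fun t => om k (k / x) t * Xz t ^ (2 + 2 * a)) (Set.Ioi 0) := iX hδ (by linarith) (by linarith)
  have iwg : IntegrableOn (fun t => wz k x t * gq l0 J a (RR Rs) (II y) t) (Set.Ioi 0) := iwgq hBL hδ l0 a
  have iw0 : IntegrableOn (fun t => wz k x t) (Set.Ioi 0) := by
    have := wz_int k hδ (f := fun _ => (1:ℝ)) (C := 1) continuous_const (fun _ => by simp)
    simpa using this
  have ig : IntegrableOn (fun t => om k (k / x) t * gp J (1 + a) (RR Rs) (II y) t) (Set.Ioi 0) :=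
    igp hBL (by omega) hδ (by rw [abs_le]; constructor <;> linarith)
  set D : ℝ → ℝ := fun t => om k (k / x) t * Xz t ^ (2 + 2 * a) - wz k x t * gq l0 J a (RR Rs) (II y) t with hD
  have iD : IntegrableOn D (Set.Ioi 0) := iX2.sub iwg
  have iM : IntegrableOn (fun t => wz k x t * (E' * gq l0 J a (RR Rs) (II y) t - 1)) (Set.Ioi 0) := by
    have i5 : IntegrableOn (fun t => E' * (wz k x t * gq l0 J a (RR Rs) (II y) t) - wz k x t) (Set.Ioi 0) :=
      (iwg.const_mul E').sub iw0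
    refine i5.congr_fun (fun t _ => ?_) measurableSet_Ioi
    simp only
    ring
  have e1 : ∀ t, om k (k / x) t * FX a V t = E' * D t + wz k x t * (E' * gq l0 J a (RR Rs) (II y) t - 1) := by
    intro t
    rw [hD]
    unfold FX wz Xz
    ring
  simp_rw [e1]
  rw [integral_add (iD.const_mul _) iM, integral_const_mul]
  refine (abs_add_le _ _).trans ?_
  have hDb : |∫ t in Set.Ioi (0:ℝ), D t| ≤ 16 * |a| * ((∫ t in Set.Ioi (0:ℝ), om k (k / x) t *
      gp J (1 + a) (RR Rs) (II y) t) + ∫ t in Set.Ioi (0:ℝ), om k (k / x) t * (‖riemannZeta (cl t)‖ ^ 4 *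
      gp J (-1 + a) (RR Rs) (II y) t)) := by
    rw [← integral_add ig i4, ← integral_const_mul]
    refine abs_integral_le_integral_abs.trans ?_
    refine setIntegral_mono_on iD.abs ((ig.add i4).const_mul _) measurableSet_Ioi fun t ht => ?_
    have h1 := pt_lip ha hRs J (fun i => PI (II y i) (1 / 2 + t * Complex.I)) (Xz_nonneg t)
    have h2 := mul_le_mul_of_nonneg_left h1 (hom t ht)
    have e2 : D t = om k (k / x) t * (Xz t ^ (2 + 2 * a) - Xz t ^ 2 * ∏ i ∈ range J,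
        ‖NK (RR Rs i) a (PI (II y i) (1 / 2 + t * Complex.I))‖ ^ 2) := by
      rw [hD, ← gq_l0]
      simp only
      unfold wz Xz
      ring
    rw [e2, abs_mul, abs_of_nonneg (hom t ht)]
    refine h2.trans (le_of_eq ?_)
    unfold gp Xz
    ring
  have hVc : Real.exp V ≤ Real.exp c * L := by
    have h1 := (abs_le.mp hBL.vv).2
    have h2 : 1 < Real.log y := by
      have := Real.exp_one_lt_d9
      rw [Real.lt_log_iff_exp_lt (by linarith)]; linarith
    have hyL : Real.log y ≤ L := by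
      have h3 := hyg 1 ((min_le_left _ _).trans hη21)
      have h4 : (0:ℝ) ≤ Rs := Nat.cast_nonneg _
      nlinarith
    calc Real.exp V ≤ Real.exp (Real.log (Real.log y) + c) := Real.exp_le_exp.mpr (by linarith)
      _ = Real.log y * Real.exp c := by rw [Real.exp_add, Real.exp_log (by linarith)]
      _ ≤ L * Real.exp c := by gcongr
      _ = _ := mul_comm _ _
  have hE1 : E' * Real.exp ((1 + a) ^ 2 * V) = Real.exp V := by
    rw [hE', ← Real.exp_add]; congr 1; ring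
  have hE2 : E' * Real.exp ((a ^ 2 + 2 * a) * V) = 1 := by rw [hE', ← Real.exp_add]; simp
  have hfirst : |E' * ∫ t in Set.Ioi (0:ℝ), D t| ≤ 16 * (C0 * Real.exp c + C4) * |a| * L := by
    rw [abs_mul, abs_of_pos hE'0]
    calc _ ≤ E' * (16 * |a| * (C0 * Real.exp ((1 + a) ^ 2 * V) +
          C4 * L * Real.exp ((a ^ 2 + 2 * a) * V))) := by
          refine mul_le_mul_of_nonneg_left (hDb.trans ?_) hE'0.le
          gcongr
      _ = 16 * |a| * (C0 * (E' * Real.exp ((1 + a) ^ 2 * V)) +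
          C4 * L * (E' * Real.exp ((a ^ 2 + 2 * a) * V))) := by ring
      _ = 16 * |a| * (C0 * Real.exp V + C4 * L) := by rw [hE1, hE2, mul_one]
      _ ≤ 16 * |a| * (C0 * (Real.exp c * L) + C4 * L) := by gcongr
      _ = _ := by ring
  have hpow : x ^ (-η2) ≤ x ^ (-min η2 η3) := Real.rpow_le_rpow_of_exponent_le hx1 (by
    have := min_le_left η2 η3
    linarith)
  calc _ ≤ 16 * (C0 * Real.exp c + C4) * |a| * L + (C2 * |a| * L + x ^ (-η2)) := add_le_add hfirst hm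
    _ ≤ _ := by
      have : (16 * (C0 * Real.exp c + C4) + C2) * |a| * L = 16 * (C0 * Real.exp c + C4) * |a| * L + C2 * |a| * L := by
        ring
      rw [this]; linarith

end Pool.Agent.H998_LP
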